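import Pool.Agent.Q269.GJ.StC
import Pool.Agent.Q269.GR.StE

/-!
# Project GJ: lemma jobs, the proportions

`q = Fintype.card k`, `Δ = Del a`. These jobs generalise the jobs of the same name of project GR
(`Pool/Agent/Q269/GR/StE.lean`), whose statements are written `GR.S_…`. `XA`, `XB`, `tn` and the statements `GR.S_DEC`,
`GR.S_TYA`, `GR.S_TYB`, `GR.S_AVP`, `GR.S_ERA`, `GR.S_ERB`, `GR.S_TNP`, `GR.S_PRD` of `Pool/Agent/Q269/GR/StD.lean` are for arbitrary `Δ` and are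
used unchanged. Modules of the proofs of the statements `GR.S_…`: see `Pool/Agent/Q269/GR/Asm.lean`.
-/

set_option autoImplicit false
set_option linter.all false

open scoped Classical
open Finset Polynomial

namespace Pool.Agent.Q269.GJ

open Pool.Agent.Q269.GR (F2 cf ev Un Eb dl IsRt gg Bt AA MM ts HU HG Herm hv own Irn Dn pr Fr xi Pfam dg
  Ce IsCe sT erT FxR owR A0R tn XA XB)
open Pool.Agent.Y164.PS (L sg Sf)
open Pool.Agent.Y164.HG (Geo Del Imp QQ Tau EW nb)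

/-- **JOB GJ-SMD.** The probabilities are between `0` and `1` and summable with the weight `r`.
(`t_SMD (h1 : GR.S_SMD) (h2 : GR.S_ORD) : S_SMD`. GR: `Pool/Agent/Q149/GR/SMD.lean`.)
Proof. `dl r ≤ (3/2) 2^(-(f-1)/2)`, `f = orderOf (2 : ZMod r)` (docstring of `GR.S_SMD`), and for `r > R` in `OO R`: `r ≤ 2^(f/8)`, so
`r dl r ≤ 3 · 2^(-3f/8)`: `GR.S_ORD` with `δ = 3/8`; the `r ≤ R` are finitely many. -/
def S_SMD : Prop := ∀ R : ℕ, (∀ r : ℕ, OO R r → 0 ≤ dl r ∧ dl r < 1) ∧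
  Summable (fun r : ℕ => if OO R r then (r : ℝ) * dl r else 0)

/-- **JOB GJ-ABS.** The infinite product is positive. (`t_ABS (h : S_SMD) : S_ABS`. GR: `Pool/Agent/Q149/GR/ABS.lean`.)
Proof. `(1 - x)^r ≥ 1 - r x` for `0 ≤ x ≤ 1`. Let `y₀` be such that the tail of the series beyond `y₀` is at most `1/2`; for
`y ≥ y₀` the product over `r ≤ y` is at least the product over `r ≤ y₀` (positive) times
`∏_(y₀ < r ≤ y) (1 - dl r)^r ≥ 1 - ∑_(r > y₀) r dl r ≥ 1/2`; and `tl R y → 0`. -/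
def S_ABS : Prop := ∀ R : ℕ, (∃ y : ℕ, 0 < ∏ r ∈ (range (y + 1)).filter (OO R), (1 - dl r) ^ r - tl R y) ∧
  (∀ y, 0 ≤ tl R y) ∧ Filter.Tendsto (tl R) Filter.atTop (nhds 0)

/-- **JOB GJ-RPS.** Representatives of the roots of unity. (`t_RPS (h1 : S_CNJ) (h2 : GR.S_XIR) : S_RPS`.)
Proof. Among the pairs `(r, u)` with `OO R r`, `r ≤ y`, `u < r` prime to `r` choose one for each class of the equivalence
relation: `(r, u) ~ (r', u')` iff `minpoly (xi r ^ u) = minpoly (xi r' ^ u')` or `minpoly (xi r ^ u) = minpoly (xi r' ^ u')⁻¹` (an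
equivalence relation: `minpoly x = minpoly y` iff `minpoly x⁻¹ = minpoly y⁻¹`; equivalent pairs have the same `r`, the order of
the roots, as the roots of the minimal polynomial of an element of order `r` have order `r`). `IsR` holds, at most `r` pairs with
first component `r`. If `KD = ⊥` for the representatives then, by CNJ, for all their conjugates `ξ^(2^i)` and inverses of
conjugates; and two elements of `Fr r` with the same minimal polynomial over `F2` are conjugate: `ξ' = ξ^(2^i)` (the roots of the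
minimal polynomial of `ξ` are the `ξ^(2^i)`). `xi r ^ u` depends only on `u` modulo `r`, so all `u` prime to `r` are covered. -/
def S_RPS : Prop := ∀ R y : ℕ, ∃ Rp : Finset (ℕ × ℕ), IsR Rp ∧ (∀ p ∈ Rp, OO R p.1 ∧ p.1 ≤ y) ∧
  (∀ r : ℕ, (Rp.filter fun p => p.1 = r).card ≤ r) ∧
  ∀ (k : Type) [Field k] [Fintype k] (n : ℕ) (a : Fin n → k[X]) (N : ℕ), Geo a N → ∀ (m : ℕ),
  ∀ D ∈ Dn (Del a) m, (∀ p ∈ Rp, KD p.1 (xi p.1 ^ p.2) a D = ⊥) → ∀ r : ℕ, OO R r → r ≤ y → GoodA r a D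

/-- **JOB GJ-ENA.** Finitely many roots of unity, with an admissible property `f`. (`t_ENA (h1 : S_CLA) (h2 : GR.S_DEC)
(h3 : GR.S_TYA) (h4 : GR.S_ERA) (h5 : S_GEN) (h6 : GR.S_TNP) (h7 : GR.S_PRD) (h8 : GR.S_AVP) (h9 : GR.S_SMD) : S_ENA`.
GR: `t_ENA`, `Pool/Agent/Q150/GR/ENA.lean`.)
Proof. As `GR.S_ENA` with `N = ∏_(p∈R) p.1` (odd). `t = tn m → ∞`, `μ d := t^40 < d`, `X = XA Δ m`. In a cell: `Hyn a P0 mv p.1` by
GEN for the moving degrees (`> t^40 ≥ d₀`), `12 · 2^r (t^41 + 2) ≤ 5^(t^40/2)`, `sfx ≤ t/100 ≤ t²/8 ≤ smv`.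
`nn ≤ 2^(n² + 2 + 4n t/100 + 16n² + 64) (5/6)^(t²/8) → 0` (`n` is fixed). ERA with `z = t^40`:
`erT ≤ t^24 (2^(eT + N t^12) 8 N / 2^(t^40/2))^(1/2) → 0` (`eT ≤ (t^12+1)(2 + ∑ p.1) + deg Δ + n² + 3`). -/
def S_ENA : Prop := ∀ (k : Type) [Field k] [Fintype k] (n : ℕ) (a : Fin n → k[X]) (N : ℕ), Geo a N →
  5 ≤ Fintype.card k → ∀ R : Finset (ℕ × ℕ), IsR R → ∀ ε : ℝ, 0 < ε → ∀ᶠ m : ℕ in Filter.atTop,
  ∀ f : k[X] → Prop, AdmD (Del a) f →
  (∏ p ∈ R, (1 - dl p.1)) * (((Dn (Del a) m).filter fun D => f D).card : ℝ) -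
      ε * (Fintype.card k : ℝ) ^ m ≤
    (((Dn (Del a) m).filter fun D => f D ∧ ∀ p ∈ R, KD p.1 (xi p.1 ^ p.2) a D = ⊥).card : ℝ)

/-- **JOB GJ-EB1.** The orders up to `t^8`, one by one. (`t_EB1 (h1 : S_CLA) (h2 : GR.S_DEC) (h3 : GR.S_TYA) (h4 : GR.S_ERA)
(h5 : S_GEN) (h6 : GR.S_TNP) (h7 : GR.S_PRD) (h8 : GR.S_AVP) (h9 : S_SMD) : S_EB1`. GR: `t_EB1`, `Pool/Agent/Q241/GR/EB1.lean`.)
Proof. As ENA with `R = {(r, u)}`, `N = r`, uniformly in the `r ≤ t^8` and the `u < r` prime to `r` (`GoodA r` is the condition for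
these `u`): in a cell `#{f ∧ KD ≠ ⊥} ≤ dl r #{f} + (nn + 2 erT) |C|`, and `t^16` times the error terms still tends to `0`. Sum over
the `u < r` and the `r` with `OO R' r`, `y < r ≤ t^8` (`R'` is the parameter of `OO`):
`∑_r r dl r #{f} + ε' q^m ≤ tl R' y #{f} + ε' q^m`. -/
def S_EB1 : Prop := ∀ (k : Type) [Field k] [Fintype k] (n : ℕ) (a : Fin n → k[X]) (N : ℕ), Geo a N →
  5 ≤ Fintype.card k → ∀ R : ℕ, ∀ ε : ℝ, 0 < ε → ∀ᶠ m : ℕ in Filter.atTop,
  ∀ f : k[X] → Prop, AdmD (Del a) f → ∀ y : ℕ,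
  (((Dn (Del a) m).filter fun D => f D ∧
      ∃ r : ℕ, OO R r ∧ y < r ∧ r ≤ tn m ^ 8 ∧ ¬ GoodA r a D).card : ℝ) ≤
    tl R y * (((Dn (Del a) m).filter fun D => f D).card : ℝ) + ε * (Fintype.card k : ℝ) ^ m

/-- **JOB GJ-EB2.** The large orders: almost no twist has a bad order `r > t^8`.
(`t_EB2 (h1 : S_CLC) (h2 : GR.S_DEC) (h3 : GR.S_TYB) (h4 : GR.S_ERB) (h5 : GR.S_AVP) (h6 : GR.S_TNP) (h7 : GR.S_PRD) (h8 : GR.S_ORD) :
S_EB2`. GR: `t_EB2`, `Pool/Agent/Q299/GR/EB2.lean`.)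
Proof. As `GR.S_EB2`. `t = tn m`. If `r > m` no prime divisor has degree divisible by `r`, so `GoodA r`. Let `t^8 < r ≤ m`, `OO R r`,
`t^8 > R`, so `r^8 ≤ 2^f`, `f = orderOf (2 : ZMod r)`; `X = XB Δ m`, `μ d := 0 < d ∧ r ∣ d`. In a cell with `J` moving indices, for each
`u < r` prime to `r`, CLC and ERB bound the proportion of the `D` with `KD r (xi r ^ u) a D ≠ ⊥` by
`n J/2^(f/2) + C_n t^24 · 6 (r+4) (4/5)^r` if `J ≥ 2` (`erT r P0 mv (2^(n²+1) 2^((r-1)/2)) = 2^((n²-2)/2) erT r P0 mv (8 · 2^((r-1)/2))`,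
as `erT` is homogeneous of degree `1/2` in the last argument), by `C_n/2^(f/4)` if `J = 1`, `0` if `J = 0` (natural number
divisions in the exponents). Sum over the `u` (factor `r`) and `r`: by DEC and AVP (`∑_D J(D) ≤ q^m (1 + log m)/r`,
`log m < (t+1)^10`) the number of the bad `D ∈ X` is at most `q^m` times
`∑_(r>t^8, OO R r) (n (2+t)^10/2^(f/2) + C_n r/2^(f/4) + C_n t^24 r · 6 (r+4) (4/5)^r)`. As `2^f ≥ r^8 ≥ t^64`:
`2^(-f/2) ≤ t^(-16) 2^(-f/4)`, and `r 2^(-f/4) ≤ 2^(-f/8)`: tails of convergent series (ORD with `δ = 1/8`). Finally TYB. -/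
def S_EB2 : Prop := ∀ (k : Type) [Field k] [Fintype k] (n : ℕ) (a : Fin n → k[X]) (N : ℕ), Geo a N →
  5 ≤ Fintype.card k → ∀ R : ℕ, ∀ ε : ℝ, 0 < ε → ∀ᶠ m : ℕ in Filter.atTop,
  (((Dn (Del a) m).filter fun D =>
      ∃ r : ℕ, OO R r ∧ tn m ^ 8 < r ∧ ¬ GoodA r a D).card : ℝ) ≤ ε * (Fintype.card k : ℝ) ^ m

/-- **JOB GJ-ADM.** The property `TR` is admissible. (GR: `Pool/Agent/Q257/GR/ADM.lean`.)
Proof. For `D = ∏ i, P i`, `Pfam (Del a) P`, the prime factors of `D` are the `P i` (`GR.S_PRD`, or prove it); reindex: the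
condition and `Triv` for the family indexed by `{P // P ∈ pr D}` are equivalent to those for the family indexed by `Fin m`
(invariance of `Triv` under bijections of the index type). They depend only on the `L (P i) (P j)` (`L (P i) (P i) = 0`), the
`L (P i) (QQ a s)` (`L_comm`, as `-1` is a square) and the parities of the degrees. -/
def S_ADM : Prop := ∀ (k : Type) [Field k] [Fintype k] (n : ℕ) (a : Fin n → k[X]) (N : ℕ) (H : Geo a N),
  AdmD (Del a) fun D => TR H D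

/-- **JOB GJ-IMP.** The property `TR` for the theorem of `Pool/Agent/Y164/HG/Main.lean`.
Proof. `Imp` (`Pool/Agent/Y164/HG/Lvl2.lean`): a family `T` with `Fam (Sum.elim T Q)`, the class condition and `Triv`; the prime
factors of `∏ i, T i` are the `T i`; reindex as in ADM. Second part: `Dn` is the set of the monic squarefree polynomials prime to
`Del a`, `Sf k m` that of the monic squarefree polynomials of degree `m` (`mem_Sf`), `nb (QQ a) E` means that no monic prime divisor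
of `Del a` divides `E` (see `nb_iff` in `Pool/Agent/Y164/HG/Cla.lean`). -/
def S_IMP : Prop := ∀ (k : Type) [Field k] [Fintype k] (n : ℕ) (a : Fin n → k[X]) (N : ℕ) (H : Geo a N)
  [Fact (Odd n)], (∀ σ : Tau a → F2, Imp (H.dat σ) (QQ a) fun D => TR H D) ∧
  ∀ m : ℕ, Dn (Del a) m = (Sf k m).filter fun D => nb (QQ a) D

/-- **JOB GJ-SMT.** The order of `2` modulo numbers with small prime factors.
Proof. For an odd prime `p` let `p^c` be the exact power of `p` dividing `2^(p-1) - 1`. For `m > c` the order of `2` modulo `p^m` is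
divisible by `p^(m-c)` (if `2^o ≡ 1` modulo `p^m` then by LTE `p^m ∣ 2^((p-1) o) - 1` has exact power `p^(c + v_p(o))`:
`Nat.emultiplicity_pow_sub_pow` or `padicValNat.pow_sub_pow`). For `r ∣ e`, `r = ∏_(p ≤ B) p^(m_p)`, the order of `2` modulo `r` is
divisible by all these powers, so it is at least `r/C`, `C = ∏_(2<p≤B) p^(c_p)`. And `r^8 ≤ 2^(r/C)` for large `r`. -/
def S_SMT : Prop := ∀ B : ℕ, ∃ R : ℕ, ∀ e : ℕ, Odd e → (∀ p : ℕ, p.Prime → p ∣ e → p ≤ B) →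
  ∀ r : ℕ, r ∣ e → R < r → r ^ 8 ≤ 2 ^ orderOf (2 : ZMod r)

/-- **JOB GJ-DNS.** Most odd numbers are admissible degrees. (`t_DNS (h : GR.S_ORD) : S_DNS`.)
Proof. A bad `e ≤ x` has a divisor `r > R` with `2^f < r^8`, `f = orderOf (2 : ZMod r)`, so the number of the bad `e ≤ x` is at most
`∑ x/r ≤ x ∑_(r > R, r odd) 2^(-f/8)`, the tail of a convergent series (ORD with `δ = 1/8`). -/
def S_DNS : Prop := ∀ ε : ℝ, 0 < ε → ∃ R₀ : ℕ, ∀ R ≥ R₀, ∀ x : ℕ,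
  (((Icc 1 x).filter fun e => Odd e ∧ ∃ r : ℕ, r ∣ e ∧ R < r ∧ 2 ^ orderOf (2 : ZMod r) < r ^ 8).card : ℝ) ≤
    ε * x

/-- **JOB GJ-END.** The conclusion on the proportions. (`t_END (h1 : S_ENA) (h2 : S_EB1) (h3 : S_EB2) (h4 : S_ADM)
(h5 : S_ABS) (h6 : S_RPS) (h7 : S_IMP) (h8 : S_SMD) : S_END`. GR: `t_END`, `Pool/Agent/Q251/GR/END.lean`.)
Proof. `y` from ABS, `γ = ∏_(r ≤ y, OO R r) (1 - dl r)^r - tl R y > 0`, `c = γ/24` say. `f D := TR H D` (ADM). ENA with `Rp` of RPS: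
`∏_(p∈Rp) (1 - dl p.1) ≥ ∏_(r ≤ y, OO R r) (1 - dl r)^r` (at most `r` pairs with first component `r`, `0 ≤ 1 - dl r ≤ 1`), EB1, EB2
give `#{f ∧ ∀ r, OO R r → GoodA r} ≥ γ #{f} - 3 ε q^m`. `main_cnt` (`Pool/Agent/Y164/HG/Main.lean`, applied as in `final`,
`Cla.lean`, with `G := TR H`, IMP): for `m + N` odd `#{f} ≥ (1/6 - ε) #Dn`. `nb_lower` (`Main.lean`): `#Dn ≥ c' q^m`. Choose `ε` small in
terms of `c'`. -/
def S_END : Prop := ∀ R : ℕ, ∃ c : ℝ, 0 < c ∧ ∀ (k : Type) [Field k] [Fintype k] (n : ℕ)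
  (a : Fin n → k[X]) (N : ℕ) (H : Geo a N), 5 ≤ Fintype.card k → ∀ᶠ m : ℕ in Filter.atTop, Odd (m + N) →
    c * ((Dn (Del a) m).card : ℝ) ≤ (((Dn (Del a) m).filter fun D =>
      TR H D ∧ ∀ r : ℕ, OO R r → GoodA r a D).card : ℝ)

end Pool.Agent.Q269.GJ
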