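import Pool.Agent.Q269.GJ.Def

/-!
# Project GJ: lemma jobs, number theory and cells

`q = Fintype.card k`. These jobs generalise the jobs of the same name of project GR (`Pool/Agent/Q269/GR/StB.lean`,
`StD.lean`). A cell is given by a family `P0 : Fin m → k[X]` of different monic irreducible polynomials prime to `Δ` and a set
`mv` of moving indices (`IsCe`, `Ce`, `dg`, `sT`, `erT` in `Pool/Agent/Q269/GR/StD.lean`). The statements of project GR are
written `GR.S_…`.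
-/

set_option autoImplicit false
set_option linter.all false

open scoped Classical
open Finset Polynomial

namespace Pool.Agent.Q269.GJ

open Pool.Agent.Q269.GR (F2 cf ev Un Eb dl IsRt gg Bt AA MM ts HU HG Herm hv own Irn Dn pr Fr xi Pfam dg
  Ce IsCe sT erT FxR owR A0R tn XA XB)
open Pool.Agent.Y164.PS (L sg)
open Pool.Agent.Y164.HG (Geo Del)

/-- **JOB GJ-CNY.** The own symbols of a prime: the number of the primes with a given value.
(`t_CNY (h1 : GR.S_FLD) (h2 : GR.S_SGD) (h3 : GR.S_RTP) (h4 : GR.S_IRC) : S_CNY`.)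
Proof. This is what the proof of `GR.S_CNR` (docstring in `Pool/Agent/Q269/GR/StB.lean`) gives for each value `y` (there
`y = 0, 1`): see `t_CNR` in `Pool/Agent/Q16/GR/CNR.lean`, replace the two values by `y`. -/
def S_CNY : Prop := ∀ (k : Type) [Field k] [Fintype k], ringChar k ≠ 2 → IsSquare (-1 : k) →
  5 ≤ Fintype.card k → ∀ (r : ℕ) (F : Type) [Field F] [Fintype F] [Algebra F2 F] (ξ : F), IsRt r ξ →
  ∀ d : ℕ, 0 < d → r ∣ d → ∀ y : F,
  (((Irn k d).filter fun P => own r ξ P = y).card : ℝ) ≤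
    6 / 2 ^ (orderOf (2 : ZMod r) / 4) * (Irn k d).card

/-- **JOB GJ-CNJ.** Conjugate and inverse roots of unity. (`t_CNJ (h1 : GR.S_SYP) (h2 : GR.S_UNR) (h3 : GR.S_PRD) : S_CNJ`.)
Proof. (1) `x ↦ x²` is an automorphism of `F`; it maps `hv r ξ P P'` to `hv r (ξ²) P P'`, `own r ξ P` to `own r (ξ²) P`, and it
fixes the bits. So `w ∈ KD r ξ` iff `w² ∈ KD r (ξ²)` (coordinatewise square; `lap x (w²) = (lap x w)²`), and it is bijective.
(2) By SYP (6) `hv r ξ⁻¹ P P' = hv r ξ P' P` and `own r ξ⁻¹ P = own r ξ P` (SYP (4), `own = ∑ sy_c (1 + ξ^c)`). So the matrix of the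
system for `ξ⁻¹` is the transpose of that for `ξ`: for the linear map `A_ξ` of `J → W0 n F` given by the left side of the system
(it maps into `W0`, as `xb a P` is symmetric, `L (-f) P = L f P`): `∑_i v_i · (A_ξ w)_i = ∑_i (A_(ξ⁻¹) v)_i · w_i`. `A_ξ` is injective,
so surjective (finite), so `A_(ξ⁻¹) v = 0` implies `v_i · w_i' = 0` for all `w'`, `v = 0` (the dot product is nondegenerate on
`W0 n F`, `n` odd). -/
def S_CNJ : Prop := ∀ (k : Type) [Field k] [Fintype k], ringChar k ≠ 2 → IsSquare (-1 : k) →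
  ∀ (Δ : k[X]), Δ ≠ 0 → ∀ n : ℕ, Odd n → ∀ (a : Fin n → k[X]) (m : ℕ), ∀ D ∈ Dn Δ m,
  ∀ (r : ℕ) (F : Type) [Field F] [Fintype F] [Algebra F2 F] (ξ : F), IsRt r ξ → KD r ξ a D = ⊥ →
  KD r (ξ ^ 2) a D = ⊥ ∧ KD r ξ⁻¹ a D = ⊥

/-- **JOB GJ-GEN.** The weights of the primes of large degree. (GR: `t_GEN`, `Pool/Agent/Q210/GR/Gen.lean`.)
Proof. For `φ` with `φ l l' ≠ 0` for some `l < l'` let `M` be the product of the `a l - a l'`, `l < l'`, `φ l l' ≠ 0`: it divides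
`Del a`, so it is squarefree, and not constant (`N ≥ 1`), so it is not a constant times a square. For `P ∤ Del a`
(all `P ∈ Irn k d` for `d > deg (Del a)`): `pai φ (xb a P) = L M P`. `d ∑_(P ∈ Irn k d) sg (L M P)` is the sum of
`χ_E (M(x))` over the `x ∈ E = K_d` of degree exactly `d`, which is at most `deg M q^(d/2) + 2 q^(d/2)` in absolute value
(`weil_sharp`), so `o(q^d)`, and the proportion of the `P` with `L M P = 1` tends to `1/2`. (`prime_sum` in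
`Pool/Agent/Q210/GR/Gen.lean`.) There are only finitely many `φ` up to the entries which matter. -/
def S_GEN : Prop := ∀ (k : Type) [Field k] [Fintype k] (n : ℕ) (a : Fin n → k[X]) (N : ℕ), Geo a N →
  ∃ d₀ : ℕ, ∀ d ≥ d₀, Eqd a d

/-- **JOB GJ-REA.** The kernels of the elements of a cell are given by the model.
(`t_REA (h1 : GR.S_SYP) (h2 : GR.S_UNR) (h3 : GR.S_PRD) : S_REA`. GR: `t_REA`, `Pool/Agent/Q210/GR/Rea.lean`; the first part and
`Herm` are the same.) Proof: see the docstring of `GR.S_REA`. -/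
def S_REA : Prop := ∀ (k : Type) [Field k] [Fintype k], ringChar k ≠ 2 → IsSquare (-1 : k) →
  ∀ (Δ : k[X]), Δ ≠ 0 → ∀ (n : ℕ) (a : Fin n → k[X]) (N m : ℕ) (P0 : Fin m → k[X]) (mv : Finset (Fin m)),
  0 < N → IsCe Δ P0 mv → ∀ T ∈ Fintype.piFinset (Ce P0 mv),
  (∀ i j, i ≠ j → AA N (dg P0) mv (A0R T) (sT N P0 T) i j = L (T j) (T i)) ∧ (∀ i, Sy (xR a T i)) ∧
  ∀ (r : ℕ) (F : Type) [Field F] [Fintype F] [Algebra F2 F] (ξ : F), IsRt r ξ → r ∣ N →
    Herm (dg P0) mv r (FxR r ξ T) (owR r ξ T) ∧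
    (KM N (dg P0) mv r (A0R T) (FxR r ξ T) (owR r ξ T) (xR a T) ξ (sT N P0 T) = ⊥ ↔
      KD r ξ a (∏ i, T i) = ⊥)

/-- **JOB GJ-NIC.** Most elements of a cell have nice data for the order `r`.
(`t_NIC (h1 : GR.S_INJ) (h2 : GR.S_UNR) (h3 : GR.S_SYP) (h4 : GR.S_IRC) (h5 : GR.S_PRD) : S_NIC`. GR: `t_NIC`,
`Pool/Agent/Q210/GR/Nic.lean`; `inj1`, `inj2` are the same.)
Proof. `σ = sfx P0 mv r`, `λ = smv P0 mv r ≥ σ`. `inj1`, `inj2` fail for a proportion of at most `2 · 4^σ 3^(-λ)` (docstring of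
`GR.S_NIC`). `gen`: for each `φ` (only the entries `l < l'` matter, at most `2^(n²)` forms) the number `#(T)` of the moving `j` with
`r ∣ dg P0 j` and `pai φ (xb a (T j)) ≠ 0` satisfies `mean of 2^(-#(T)) ≤ (1 - (1/3)(1/2))^λ = (5/6)^λ` (`Eqd`, independence), so the
proportion of the `T` with `#(T) < M = CG n σ` is at most `2^M (5/6)^λ`. Total at most
`(2 + 2^(n²)) 2^M (5/6)^λ ≤ nn n P0 mv r` (`4^σ ≤ 2^M`, `1/3 ≤ 5/6`). -/
def S_NIC : Prop := ∀ (k : Type) [Field k] [Fintype k], ringChar k ≠ 2 → IsSquare (-1 : k) →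
  5 ≤ Fintype.card k → ∀ (Δ : k[X]), Δ ≠ 0 → ∀ (n : ℕ), 0 < n → ∀ (a : Fin n → k[X]) (m : ℕ)
  (P0 : Fin m → k[X]) (mv : Finset (Fin m)), IsCe Δ P0 mv → ∀ (r : ℕ) (F : Type) [Field F] [Fintype F]
  [Algebra F2 F] (ξ : F), IsRt r ξ → Hyn a P0 mv r →
  ((((Fintype.piFinset (Ce P0 mv)).filter fun T =>
      ¬ Nice (dg P0) mv r (FxR r ξ T) (xR a T)).card : ℕ) : ℝ) ≤
    nn n P0 mv r * (Fintype.piFinset (Ce P0 mv)).card

/-- **JOB GJ-CLA.** The proportion of the good twists in a cell, for finitely many roots of unity, inside the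
set defined by an admissible property `f`. (`t_CLA (h1 : GR.S_TRF) (h2 : S_REA) (h3 : S_NIC) (h4 : S_LAR) (h5 : GR.S_PRD)
(h6 : GR.S_XIR) (h7 : GR.S_SYP) (h8 : GR.S_UNR) : S_CLA`. GR: `t_CLA`, `Pool/Agent/Q251/GR/CLA.lean`.)
Proof. `C = piFinset (Ce P0 mv)`. Index type `κ = {p // p ∈ R}`, `r p = p.1`, `F p = Fr p.1`, `ξ p = xi p.1 ^ p.2`, of order `p.1`
(`IsRt`), `Ncj` by `IsR`. The type `t i P` of a polynomial `P` consists of the following bits: `L (P0 j) P` for `j ∉ mv`, `L Q P` for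
the monic prime divisors `Q` of `Δ` (at most `deg Δ` by PRD), `sy r (P0 j) P c` and `sy r P P c` for `j ∉ mv`, `r = p.1`, `p ∈ R`,
`c < r`, and the `n²` bits of `xb a P`: at most `eT n Δ m R` bits. For `T ∈ C` the data `FxR` (for the pairs not both moving;
use SYP (6) for the evaluation at the fixed one), `owR`, `xR`, `A0R` depend only on the types. Put `f'(T, A) := ∃ T' ∈ C` with the
same types as `T`, `A i j = L (T' j) (T' i)` for all `i ≠ j`, and `f (∏ T')`. By `AdmD`: `f'(T, A(T)) ↔ f (∏ T)`,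
`A(T) i j = L (T j) (T i)` for `i ≠ j`. `Ψ₁ T s := f'(T, AA (A0R T) s) ∧ ∀ p, KM … s = ⊥`, `Ψ₂ T s := f'(T, AA (A0R T) s)`; both
depend on `T` through the types only. By REA: `Ψ₁ T (sT T) ↔ f (∏ T) ∧ ∀ p ∈ R, KD … = ⊥`. By TRF, LAR (for the `T` with nice data
for all `p`) and NIC, with `e = erT N P0 mv (2^eT)`, `ν = ∑_(p∈R) nn`, `π = ∏ (1 - dl p.1) ∈ [0, 1]` (UNR):
`#{Ψ₁ T (sT T)} ≥ ∑_T #{s | Ψ₁ T s}/#Bt - e |C| ≥ π ∑_(T nice) #{s | Ψ₂ T s}/#Bt - e |C| ≥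
π ∑_T #{s | Ψ₂ T s}/#Bt - (ν + e) |C| ≥ π (#{T | f (∏ T)} - e |C|) - (ν + e) |C|`. -/
def S_CLA : Prop := ∀ (k : Type) [Field k] [Fintype k], ringChar k ≠ 2 → IsSquare (-1 : k) →
  5 ≤ Fintype.card k → ∀ (Δ : k[X]), Δ ≠ 0 → ∀ n : ℕ, Odd n → 3 ≤ n → ∀ (a : Fin n → k[X]) (N m : ℕ)
  (P0 : Fin m → k[X]) (mv : Finset (Fin m)) (R : Finset (ℕ × ℕ)), IsCe Δ P0 mv → Odd N →
  (∀ p ∈ R, p.1 ∣ N) → IsR R → (∀ p ∈ R, Hyn a P0 mv p.1) → ∀ f : k[X] → Prop, AdmD Δ f →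
  (∏ p ∈ R, (1 - dl p.1)) * (((Fintype.piFinset (Ce P0 mv)).filter fun T => f (∏ i, T i)).card : ℝ) -
      (∑ p ∈ R, nn n P0 mv p.1 + 2 * erT N P0 mv (2 ^ eT n Δ m R)) * (Fintype.piFinset (Ce P0 mv)).card ≤
    (((Fintype.piFinset (Ce P0 mv)).filter fun T => f (∏ i, T i) ∧
      ∀ p ∈ R, KD p.1 (xi p.1 ^ p.2) a (∏ i, T i) = ⊥).card : ℝ)

/-- **JOB GJ-CLC.** Cells for a large order `r`: the moving primes are those of degree divisible by `r`.
(`t_CLC (h1 : GR.S_TRF) (h2 : S_REA) (h3 : S_LB2) (h4 : S_CNY) (h5 : GR.S_PRD) (h6 : GR.S_XIR) (h7 : GR.S_SYP) : S_CLC`. GR: `t_CLC`,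
`Pool/Agent/Q68/GR/CLC.lean`.)
Proof. `ξ = xi r ^ u`, `IsRt r ξ`. No moving prime: the index type of `KD` is empty and the kernel is `0`. One moving prime
`P = T i₀`: the kernel is nonzero iff `d w + lap (xb a P) w = 0` for some `w ≠ 0` in `W0 n F`, `d = own r ξ P + cf` of a bit; for each
of the at most `2^(n²)` weights there are at most `n` such `d` (eigenvalues of an endomorphism of a space of dimension
`n - 1`), so `own r ξ P` is one of at most `2 n 2^(n²)` elements: CNY. At least two: TRF with `N = r` and the types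
`t i P = (∑_(j∉mv) L (P0 j) P, xb a P, (sy r P P (c + 1))_(c < (r-1)/2))`, `2^(n² + 1) · 2^((r-1)/2)` of them; by SYP (4) they
determine `own r ξ P` and so everything which enters into `KM` (all indices with `r ∣ dg P0 i` are moving),
`Ψ T s := KM … s ≠ ⊥`; LB2. -/
def S_CLC : Prop := ∀ (k : Type) [Field k] [Fintype k], ringChar k ≠ 2 → IsSquare (-1 : k) →
  5 ≤ Fintype.card k → ∀ (Δ : k[X]), Δ ≠ 0 → ∀ n : ℕ, Odd n → 3 ≤ n → ∀ (a : Fin n → k[X]) (m : ℕ)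
  (P0 : Fin m → k[X]) (mv : Finset (Fin m)) (r : ℕ), Odd r → 1 < r → (∀ i, i ∈ mv ↔ r ∣ dg P0 i) →
  IsCe Δ P0 mv → ∀ u : ℕ, Nat.Coprime u r →
  (((Fintype.piFinset (Ce P0 mv)).filter fun T => KD r (xi r ^ u) a (∏ i, T i) ≠ ⊥).card : ℝ) ≤
    (if 2 ≤ mv.card then n * mv.card / 2 ^ (orderOf (2 : ZMod r) / 2) +
      erT r P0 mv (2 ^ (n ^ 2 + 1) * 2 ^ ((r - 1) / 2)) else if mv.card = 1 then
        n * 2 ^ (n ^ 2 + 4) / 2 ^ (orderOf (2 : ZMod r) / 4)
      else 0) * (Fintype.piFinset (Ce P0 mv)).card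

end Pool.Agent.Q269.GJ
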