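import Pool.Agent.Q269.GJ.Def
import Pool.Agent.Q269.GR.StF

/-!
# Project GJ: lemma jobs, arithmetic in the constant extensions of odd degree

`k ⊆ k'` finite fields, `e = [k' : k]` (odd, prime to the degrees of the prime divisors of `Δ = Del a`, `Exd`); `a' = am k' a`
are the images over `k'` of the polynomials `a`, `D' = D.map (algebraMap k k')`. `ph k` (the Frobenius automorphism on `k'[X]`)
and `fp j P` (the prime factor over `k'` of `P` with the root `rt P`) are those of `Pool/Agent/Q269/GR/StF.lean`. The statements of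
project GR are written `GR.S_…`; modules of their proofs: see `Pool/Agent/Q269/GR/Asm.lean`.

`w : Y164.HG.V (EW n) {P // P ∈ pr D} (Tau a)` (`Pool/Agent/Y164/HG/Form.lean`) consists of a vector `w.1 P ∈ EW n` for each prime factor
`P` of `D` and a bit `w.2 s` for each monic prime divisor `QQ a s` of `Δ`.
-/

set_option autoImplicit false
set_option linter.all false

open scoped Classical
open Finset Polynomial

namespace Pool.Agent.Q269.GJ

open Pool.Agent.Q269.GR (F2 cf ev Un Eb dl IsRt gg hv own Irn Dn pr Fr xi fr ph fp Om rt)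
open Pool.Agent.Y164.PS (L)
open Pool.Agent.Y164.HG (Geo Del Tau QQ EW AT BT Triv Symp om Dat dg FF E1 E2 TT e2)

/-- the images over `k'` of the polynomials -/
noncomputable def am {k : Type} [Field k] (k' : Type) [Field k'] [Algebra k k'] {n : ℕ}
    (a : Fin n → k[X]) : Fin n → k'[X] := fun l => (a l).map (algebraMap k k')

/-- the hypotheses on the extension `k'` of `k` -/
structure Exd (k k' : Type) [Field k] [Fintype k] [Field k'] [Fintype k'] [Algebra k k'] (Δ : k[X]) : Prop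
    where
  odd : Odd (Module.finrank k k')
  cop : ∀ Q : k[X], Q.Monic → Irreducible Q → Q ∣ Δ → Nat.Coprime (Module.finrank k k') Q.natDegree

/-- the index type of the prime factors of `D` -/
abbrev Ip {k : Type} [Field k] [Fintype k] (D : k[X]) : Type := {P : k[X] // P ∈ pr D}

/-- The `l`-th coordinate of the equation at the prime `P`:
`∑_P' L P' P (v P' + v P) + lap (xb a P) (v P) + ∑_s L (Q_s) P z_s t_s + deg P x0`. -/
noncomputable def EQ1 {k : Type} [Field k] [Fintype k] {n : ℕ} {a : Fin n → k[X]} {N : ℕ} (H : Geo a N)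
    (D : k[X]) (w : Y164.HG.V (EW n) (Ip D) (Tau a)) (x0 : EW n) (P : Ip D) (l : Fin n) : F2 :=
  ∑ P' : Ip D, L P'.1 P.1 * ((w.1 P').1 l + (w.1 P).1 l) + lap (xb a P.1) (w.1 P).1 l +
    ∑ s : Tau a, L (QQ a s) P.1 * (w.2 s * e2 (H.p s) (H.q s) l) + (P.1.natDegree : F2) * x0.1 l

/-- The equation at the prime divisor `Q_s` of `Δ` (for a class in which the equations of the class hold):
`E2` of `Pool/Agent/Y164/HG/Form.lean`. -/
noncomputable def EQ2 {k : Type} [Field k] [Fintype k] {n : ℕ} {a : Fin n → k[X]} {N : ℕ} (H : Geo a N)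
    (D : k[X]) (σ : Tau a → F2) (w : Y164.HG.V (EW n) (Ip D) (Tau a)) (x0 : EW n) (s : Tau a) : F2 :=
  σ s * w.2 s + ∑ P : Ip D, L P.1 (QQ a s) * ((w.1 P).1 (H.p s) + (w.1 P).1 (H.q s)) +
    ∑ s' : Tau a, L (QQ a s) (QQ a s') * (w.2 s' * (e2 (H.p s') (H.q s') (H.p s) +
      e2 (H.p s') (H.q s') (H.q s))) +
    ((QQ a s).natDegree : F2) * (x0.1 (H.p s) + x0.1 (H.q s))

/-- `v` as a function on all polynomials (zero outside the prime factors of `D`) -/
noncomputable def vx {k : Type} [Field k] [Fintype k] {n : ℕ} {τ : Type} (D : k[X])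
    (w : Y164.HG.V (EW n) (Ip D) τ) (T : k[X]) (l : Fin n) : F2 :=
  if h : T ∈ pr D then (w.1 ⟨T, h⟩).1 l else 0

/-- the twisted sums `∑_(c < e) ξ^(-c) v(ph^c T)` -/
noncomputable def tv (k : Type) {k' F : Type} [Field k] [Fintype k] [Field k'] [Fintype k'] [Algebra k k'] [Field F]
    [Algebra F2 F] {n : ℕ} {τ : Type} (ξ : F) (D : k'[X]) (w : Y164.HG.V (EW n) (Ip D) τ) (T : k'[X])
    (l : Fin n) : F :=
  ∑ c ∈ range (Module.finrank k k'), (ξ⁻¹) ^ c * cf (vx D w ((ph k)^[c] T) l)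

/-- **JOB GJ-HYM.** The hypotheses over `k'`. (GR: `t_HYM` in `Pool/Agent/Q210/GR/Hym.lean`.)
Proof. `Separable` (finite fields are perfect) is preserved by extensions, so `Del a'` (the image of `Del a`) and `D'` are
squarefree; degrees, coprimality are preserved; `ringChar`, `-1` a square too. -/
def S_HYM : Prop := ∀ (k k' : Type) [Field k] [Fintype k] [Field k'] [Fintype k'] [Algebra k k']
  (n : ℕ) (a : Fin n → k[X]) (N : ℕ), Geo a N →
  Geo (am k' a) N ∧ Del (am k' a) = (Del a).map (algebraMap k k') ∧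
  ∀ m : ℕ, ∀ D ∈ Dn (Del a) m, D.map (algebraMap k k') ∈ Dn (Del (am k' a)) m

/-- **JOB GJ-BAD.** The prime divisors of the differences over `k'`. (`t_BAD (h1 : S_HYM) (h2 : GR.S_FCD) (h3 : GR.S_SYR) (h4 :
GR.S_FCT) : S_BAD`.)
Proof. Take some `j : k' →ₐ[k] Om k` (`IsAlgClosed.lift`). The degree of `Q = QQ a s` is prime to `e`, so `Q' = Q.map` is irreducible
and `fp j Q = Q'` (FCD (3)); by FCD (1) and HYM the `Q'` are all the elements of `pr (Del a')`, and `bpF a' = pr (Del a')`: a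
bijection `β`. `Q'` divides `a' i - a' j` iff `Q` divides `a i - a j` (`Polynomial.map_dvd_map`), so `H'.p`, `H'.q` correspond
(`Geo.dvd_iff`, `Geo.lt`). The symbols: SYR (last part) with `fp j Q = Q'`. `ph k Q' = Q'`. `gg` is a sum of the symbols
`L (a p - a l) Q`. -/
def S_BAD : Prop := ∀ (k k' : Type) [Field k] [Fintype k] [Field k'] [Fintype k'] [Algebra k k']
  (n : ℕ) [Fact (Odd n)] (a : Fin n → k[X]) (N : ℕ) (H : Geo a N) (H' : Geo (am k' a) N), Exd k k' (Del a) →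
  ∃ β : Tau a ≃ Tau (am k' a), ∀ s : Tau a,
    QQ (am k' a) (β s) = (QQ a s).map (algebraMap k k') ∧ H'.p (β s) = H.p s ∧ H'.q (β s) = H.q s ∧
    H'.comb.gg (β s) = H.comb.gg s ∧
    (∀ f : k[X], L (f.map (algebraMap k k')) (QQ (am k' a) (β s)) = L f (QQ a s)) ∧
    ph k (QQ (am k' a) (β s)) = QQ (am k' a) (β s) ∧
    (QQ (am k' a) (β s)).natDegree = (QQ a s).natDegree

/-- **JOB GJ-RAD.** The radical of the form.
Proof. `dg` is linear and `FF w ·` is linear (`FF_add_right`, over `F2` additive maps are linear) and vanishes on the kernel of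
`dg`, so it is `φ ∘ dg` for a linear form `φ` on `W` (extend from the image of `dg`; `LinearMap.exists_extend` or
`Submodule` quotients), and `φ = om x0 ·` for some `x0` (`W` is finite and `om` nondegenerate: the injective map `x ↦ om x ·`
from `W` to its dual is bijective by dimension; `om` is symmetric). So `FF w w' = om x0 (dg w')` for all `w'`. The identity `key`
in the proof of `FF_eq` (`Form.lean`) (copy it) says `FF w w' + om x0 (dg w') = ∑_i om (E1 i) (w'.1 i) + ∑_s E2 s * w'.2 s`. So the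
right side is zero for all `w'`: `E1 = 0` (`eq_zero_of_om`) and `E2 = 0`. -/
def S_RAD : Prop := ∀ (W : Type) [AddCommGroup W] [Module F2 W] [Finite W] [Symp W] (ι τ : Type) [Fintype ι]
  [Fintype τ] (D : Dat W τ) (A : ι → ι → F2) (B : ι → τ → F2) (d : ι → F2), (∀ i j, A i j = A j i) →
  ∀ w : Y164.HG.V W ι τ, dg D d w = 0 → (∀ w' : Y164.HG.V W ι τ, dg D d w' = 0 → FF D A B d w w' = 0) →
  ∃ x0 : W, (∀ i, E1 (A := A) D B d w x0 i = 0) ∧ ∀ s, E2 (ι := ι) D B w x0 s = 0

/-- **JOB GJ-CNV.** The equations in terms of the symbols.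
Proof. `E1`: coordinate `l`. `om (v P) (t s) • t s` has the coordinate `(v (p s) + v (q s)) e2 (p s) (q s) l = ∑_j mu l j s (v l + v j)`
(`Comb.key`), and `ks v` has the coordinate `∑_j (v l + v j) ch (a l - a j).leadingCoeff`. So
`∑_s B P s (om (v P) t_s) t_s + deg P ks (v P)` has the coordinate
`∑_j (v l + v j) (∑_s mu l j s L (Q_s) P + deg P ch (lc (a l - a j))) = ∑_j (v l + v j) L (a l - a j) P = lap (xb a P) (v P) l`
(`Geo.fac`, `Geo.cast_exp`, and the multiplicativity of the symbol as in `Geo.L_fac`, here at the prime `P` which does not divide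
`Del a`, as `D ∈ Dn (Del a) m`; the terms with `j = l` are zero; `L_comm`, `L_mul_left`, `L_C`). `E2`: by `om_E2v`, `om_def`. -/
def S_CNV : Prop := ∀ (k : Type) [Field k] [Fintype k] (n : ℕ) [Fact (Odd n)] (a : Fin n → k[X]) (N : ℕ)
  (H : Geo a N) (m : ℕ), ∀ D ∈ Dn (Del a) m, ∀ (σ : Tau a → F2) (w : Y164.HG.V (EW n) (Ip D) (Tau a)) (x0 : EW n),
  (∀ (P : Ip D) (l : Fin n), (E1 (A := AT fun P : Ip D => P.1) (H.dat σ) (BT (QQ a) fun P : Ip D => P.1)
      (fun P => (P.1.natDegree : F2)) w x0 P).1 l = EQ1 H D w x0 P l) ∧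
  ∀ s : Tau a, E2 (ι := Ip D) (H.dat σ) (BT (QQ a) fun P : Ip D => P.1) w x0 s = EQ2 H D σ w x0 s

/-- **JOB GJ-TWA.** The equations of the twisted sums. (`t_TWA (h1 : S_HYM) (h2 : S_BAD) (h3 : GR.S_PAS) (h4 : GR.S_FCD) : S_TWA`.)
Proof. `ph = ph k` permutes the elements of `pr D'` (`ph D' = D'`; PAS (4), (5)), `ph^e = id` (PAS (2)), `ξ^e = 1`, so `tv (ph T) = ξ tv T`.
Multiply the equation at `ph^c T` by `ξ^(-c)` and sum over `c < e`. The terms with `z` and `x0`: `L (Q'_s) (ph^c T) = L (Q'_s) T` as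
`ph Q'_s = Q'_s` (BAD) and `L (ph f) (ph T) = L f T` (PAS (3)), the degree of `ph^c T` is that of `T`, and `∑_(c<e) ξ^(-c) = 0`. The term
`lap`: `xb a' (ph^c T) = xb a' T` (the differences come from `k[X]`), `lap` is linear. In the first sum replace `T'` by
`ph^c T'`: `L (ph^c T') (ph^c T) = L T' T`, which gives `∑_T' L T' T (tv T' + tv T)`. (PAS is stated with a field `E` and `σ`; take
`E = RatFunc k'` and SIG, or prove the four facts which do not mention `E` directly, see `Pool/Agent/Q16/GR/Ph.lean`.) -/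
def S_TWA : Prop := ∀ (k k' : Type) [Field k] [Fintype k] [Field k'] [Fintype k'] [Algebra k k']
  (n : ℕ) (a : Fin n → k[X]) (N : ℕ) (H : Geo a N) (H' : Geo (am k' a) N), Exd k k' (Del a) →
  ∀ (m : ℕ), ∀ D ∈ Dn (Del a) m,
  ∀ (w : Y164.HG.V (EW n) (Ip (D.map (algebraMap k k'))) (Tau (am k' a))) (x0 : EW n),
  (∀ T l, EQ1 H' (D.map (algebraMap k k')) w x0 T l = 0) →
  ∀ (F : Type) [Field F] [Algebra F2 F] (ξ : F), ξ ^ Module.finrank k k' = 1 → ξ ≠ 1 →
  (∀ T ∈ pr (D.map (algebraMap k k')), ∀ l : Fin n,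
    ∑ T' ∈ pr (D.map (algebraMap k k')), cf (L T' T) *
      (tv k ξ (D.map (algebraMap k k')) w T' l + tv k ξ (D.map (algebraMap k k')) w T l) +
      lap (xb (am k' a) T) (tv k ξ (D.map (algebraMap k k')) w T) l = 0) ∧
  (∀ (T : k'[X]) (l : Fin n), tv k ξ (D.map (algebraMap k k')) w (ph k T) l =
    ξ * tv k ξ (D.map (algebraMap k k')) w T l) ∧
  ∀ T : k'[X], ∑ l, tv k ξ (D.map (algebraMap k k')) w T l = 0

/-- **JOB GJ-TWB.** The twisted sums vanish if the kernel over `k` is zero.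
(`t_TWB (h1 : S_TWA) (h2 : GR.S_FCD) (h3 : GR.S_SYR) (h4 : GR.S_FCT) : S_TWB`. GR: `t_WPB`, `Pool/Agent/Q202/GR/WPB.lean`, the same
computation.)
Proof. `g_P = gcd (e, deg P)`, `T_P = fp j P`, `u(P) = tv T_P`. By FCT (6) `ph^(g_P) T_P = T_P`, so `u(P) = ξ^(g_P) u(P)`, and `u(P) = 0` if
`r` does not divide `deg P`. All elements of `pr D'` are the `ph^c T_P`, `P ∈ pr D`, `c < g_P` (FCD (1), different ones), and
`tv (ph^c T_P) = ξ^c u(P)`: it is enough to show `u = 0`. The equation of TWA at `T_P`, for `P ∈ pr D`, `r ∣ deg P`: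
`∑_P' ∑_(c<g_P') L (ph^c T_P') T_P (ξ^c u(P') + u(P)) + lap (xb a' T_P) u(P) = 0`. For `P' ≠ P`, `r ∣ deg P'`: the part with `u(P')` is
`hv r ξ P' P u(P')` (SYR (1)); for `r ∤ deg P'` it is zero; the part with `u(P)` is `L (P'.map) T_P u(P) = L P' P u(P)` (FCT (7),
`L_prod_left`, SYR (3)). For `P' = P`: `own r ξ P u(P)` (SYR (2)). `xb a' T_P = xb a P` (SYR (3)). So
`(u(P))_(r ∣ deg P)`, which are in `W0 n F`, is an element of `KD r ξ a D = ⊥`. -/
def S_TWB : Prop := ∀ (k k' : Type) [Field k] [Fintype k] [Field k'] [Fintype k'] [Algebra k k']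
  (n : ℕ) (a : Fin n → k[X]) (N : ℕ) (H : Geo a N) (H' : Geo (am k' a) N), Exd k k' (Del a) →
  ∀ (m : ℕ), ∀ D ∈ Dn (Del a) m,
  ∀ (w : Y164.HG.V (EW n) (Ip (D.map (algebraMap k k'))) (Tau (am k' a))) (x0 : EW n),
  (∀ T l, EQ1 H' (D.map (algebraMap k k')) w x0 T l = 0) →
  ∀ (F : Type) [Field F] [Algebra F2 F] (ξ : F) (r : ℕ), orderOf ξ = r → 1 < r →
  r ∣ Module.finrank k k' → KD r ξ a D = ⊥ →
  ∀ T ∈ pr (D.map (algebraMap k k')), ∀ l : Fin n, tv k ξ (D.map (algebraMap k k')) w T l = 0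

/-- **JOB GJ-CST.** A periodic sequence all of whose twisted sums vanish is constant. (`t_CST (h : GR.S_XIR) : S_CST`.)
Proof. `S(X) = ∑_(c<e) s(c) X^c` over `F2`, of degree `< e`. For `r ∣ e`, `r > 1`, it vanishes at the `φ(r)` different elements
`(xi r ^ u)⁻¹` (`u < r` prime to `r`) of `Fr r`, which are all the roots of the cyclotomic polynomial `Φ_r` (degree `φ(r)`), so `Φ_r`
divides `S` over `Fr r`, and over `F2` (`Polynomial.map_dvd_map'`). The `Φ_r`, `r ∣ e`, are pairwise coprime over `F2` (their product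
`X^e - 1` is separable as `e` is odd), so `∏_(r ∣ e, r > 1) Φ_r = 1 + X + … + X^(e-1)` divides `S`, and `S` is a constant multiple of
it. -/
def S_CST : Prop := ∀ (e : ℕ), Odd e → ∀ s : ℕ → F2, (∀ c, s (c + e) = s c) →
  (∀ r : ℕ, 1 < r → r ∣ e → ∀ u : ℕ, Nat.Coprime u r →
    ∑ c ∈ range e, ((xi r ^ u)⁻¹) ^ c * cf (s c) = 0) → ∀ c : ℕ, s c = s 0

/-- **JOB GJ-EXT.** No growth over `k'`. (`t_EXT (h1 : S_HYM) (h2 : S_BAD) (h3 : S_RAD) (h4 : S_CNV) (h5 : S_TWB) (h6 : S_CST)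
(h7 : GR.S_FCT) (h8 : GR.S_FCD) (h9 : GR.S_SYR) (h10 : GR.S_PAS) (h11 : GR.S_XIR) : S_EXT`.)
Proof. `TR H D` gives `σ` with the class condition and `Triv`. Over `k'` put `σ' s' = ∑_T L T (Q'_s') + gg' s'` (class condition, char 2).
By BAD, `∑_T L T (Q'_(β s)) = ∑_(P ∈ pr D) L (P.map) (Q'_(β s)) = ∑_P L P (Q_s)` (FCD, FCT (7), `L_prod_left`), so `σ' (β s) = σ s`.
`Triv` over `k'`: let `w` be in the kernel. RAD (`A` symmetric as `-1` is a square) gives `x0` with `E1 = 0`, `E2 = 0`, and CNV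
`EQ1 = 0`, `EQ2 = 0` over `k'`. Fix `T ∈ pr D'` and `l`; `s c = vx D' w (ph^c T) l` has period `e` (`ph^e = id`), and for `r ∣ e`, `r > 1`,
`u` prime to `r` the sum of CST is `tv k (xi r ^ u) D' w T l = 0` (TWB with `F = Fr r`, `ξ = xi r ^ u`, of order `r` by XIR, and
`GoodA r a D`). So `w.1` is constant on the orbits of `ph`: `w.1 (ph^c T_P) = v0 P`, `T_P = fp j P`. Put `w0 = (v0, w.2 ∘ β)`. The equation
`EQ1` of `w` at `T_P` is the equation `EQ1` of `w0` at `P` over `k`: `∑_(c<g) L (ph^c T_P') T_P = L P' P` for `P' ≠ P` (FCT (7), SYR (3)),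
the terms with `P' = P` are zero, `xb a' T_P = xb a P`, `L (Q'_(β s)) T_P = L (Q_s) P` (SYR (3)), `deg T_P = deg P / g_P`, `g_P` odd. In the
same way `EQ2` (`∑_c L (ph^c T_P) (Q'_(β s)) = L P (Q_s)`, BAD). CNV over `k` and `key_of_triv` (`Form.lean`; `∑_P deg P + N = m + N` is odd)
give `w0 = TT y`, so `w = TT' y` (`w.1 T = y`, `w.2 (β s) = y (p s) + y (q s)`), and `0 = dg w = (∑_T deg T + N) y = y` (`dg_TT`). -/
def S_EXT : Prop := ∀ (k k' : Type) [Field k] [Fintype k] [Field k'] [Fintype k'] [Algebra k k']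
  (n : ℕ) (a : Fin n → k[X]) (N : ℕ) (H : Geo a N) (H' : Geo (am k' a) N), Exd k k' (Del a) →
  ∀ (m : ℕ), Odd (m + N) → ∀ D ∈ Dn (Del a) m, TR H D →
  (∀ r : ℕ, 1 < r → r ∣ Module.finrank k k' → GoodA r a D) → TR H' (D.map (algebraMap k k'))

end Pool.Agent.Q269.GJ
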