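import Pool.Agent.Q269.GJ.StE
import Pool.Agent.Q269.GJ.StF
import Pool.Agent.Q269.GR.Fin0
import Pool.Agent.Y164.HG.Cla

/-!
# Project GJ: from the proportions and the arithmetic to the final statement
-/

set_option autoImplicit false
set_option linter.all false

open scoped Classical
open Finset Polynomial

namespace Pool.Agent.Q269.GJ

open Pool.Agent.Q269.GR (F2 Dn pr mem_Dn' S_PRD)
open Pool.Agent.Y164.PS (L Fam)
open Pool.Agent.Y164.HG (Geo Del Tau QQ EW AT BT Triv imp_good Good tw)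

theorem five_le {k : Type} [Field k] [Fintype k] (hk : ringChar k ≠ 2) (hm : IsSquare (-1 : k)) :
    5 ≤ Fintype.card k := by
  have h4 := Pool.Agent.Y164.HG.four_le (Ring.two_ne_zero hk) hm
  have h5 := FiniteField.odd_card_of_char_ne_two hk
  omega

/-- the two descriptions of the twists -/
theorem mem_tw {k : Type} [Field k] [Fintype k] {n : ℕ} {a : Fin n → k[X]} {m : ℕ} {D : k[X]} :
    D ∈ tw a m ↔ D ∈ Dn (Del a) m := by
  rw [mem_Dn']
  show (_ ∧ _ ∧ _ ∧ _) ↔ _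
  have h : IsCoprime D (Del a) ↔ ∀ i j, i ≠ j → IsCoprime D (a i - a j) := by
    rw [Del, IsCoprime.prod_right_iff]
    constructor
    · intro h i j hij
      rcases lt_or_gt_of_ne hij with h1 | h1
      · exact h (i, j) (mem_filter.2 ⟨mem_univ _, h1⟩)
      · have h2 := h (j, i) (mem_filter.2 ⟨mem_univ _, h1⟩)
        have h3 : a i - a j = -(a j - a i) := by ring
        rw [h3]
        exact h2.neg_right
    · intro h x hx
      exact h x.1 x.2 (ne_of_lt (mem_filter.1 hx).2)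
  rw [h]
  tauto

/-- the arithmetic conclusion over `k(t)` from the property `TR` -/
theorem good_of (hP : S_PRD) {k : Type} [Field k] [Fintype k] (K : Type) [Field K] [Algebra k[X] K]
    [IsFractionRing k[X] K] {n : ℕ} {a : Fin n → k[X]} {N : ℕ} (H : Geo a N) {m : ℕ}
    (hm : Odd (m + N)) {D : k[X]} (hD : D ∈ Dn (Del a) m) (h : TR H D) : Good K a D := by
  haveI : Fact (Odd n) := ⟨H.hn⟩
  obtain ⟨σ, hcl, htr⟩ := h
  obtain ⟨-, p2, -, -, -, -⟩ := hP k (Del a) H.del_ne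
  obtain ⟨q1, q2, q3⟩ := p2 m D hD
  have hc : IsCoprime D (Del a) := (mem_Dn'.1 hD).2.2
  have hfam : Fam (Sum.elim (fun P : Ip D => P.1) (QQ a)) := by
    constructor
    · rintro (P | s)
      · exact ((q3 P.1).1 P.2).1
      · exact H.fam.mon s
    · rintro (P | s)
      · exact ((q3 P.1).1 P.2).2.1
      · exact H.fam.irr s
    · have hne : ∀ (P : Ip D) (s : Tau a), P.1 ≠ QQ a s := by
        intro P s h
        have h1 := (q3 P.1).1 P.2
        exact h1.2.1.not_isUnit (hc.isUnit_of_dvd' h1.2.2 (h ▸ (H.mem.1 s.2).2.2))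
      rintro (P | s) (P' | s') h
      · exact congrArg Sum.inl (Subtype.ext h)
      · exact absurd h (hne P s')
      · exact absurd h.symm (hne P' s)
      · exact congrArg Sum.inr (H.fam.inj h)
  have hpar : ∑ P : Ip D, ((P.1.natDegree : ℕ) : F2) + (H.dat σ).N = 1 := by
    have h1 : ∑ P : Ip D, ((P.1.natDegree : ℕ) : F2) = ((∑ P ∈ pr D, P.natDegree : ℕ) : F2) := by
      rw [Nat.cast_sum]
      exact Finset.sum_coe_sort (pr D) (fun P => ((P.natDegree : ℕ) : F2))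
    rw [h1, q2]
    show ((m : ℕ) : F2) + ((N : ℕ) : F2) = 1
    rw [← Nat.cast_add]
    exact (ZMod.natCast_eq_one_iff_odd).2 hm
  have key := imp_good (K := K) H σ (Ip D) (fun P => P.1) hfam hcl hpar htr
  have hD' : ∏ P : Ip D, P.1 = D := by
    rw [Finset.prod_coe_sort (pr D) (fun P => P)]
    exact q1
  rw [hD'] at key
  exact key

/-- the final argument -/
theorem main (h1 : S_END) (h2 : S_EXT) (h3 : S_HYM) (h4 : S_SMT) (h5 : S_DNS) (h6 : S_PRD) (ε : ℝ)
    (hε : 0 < ε) (B : ℕ) : ∃ (c : ℝ) (E : Set ℕ), 0 < c ∧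
    (∀ e : ℕ, Odd e → (∀ p : ℕ, p.Prime → p ∣ e → p ≤ B) → e ∈ E) ∧
    (∀ x : ℕ, ((({e | 1 ≤ e ∧ e ≤ x ∧ Odd e ∧ e ∉ E} : Set ℕ).ncard : ℕ) : ℝ) ≤ ε * x) ∧
    ∀ (k : Type) [Field k] [Fintype k] (n : ℕ) (a : Fin n → k[X]) (N : ℕ), Geo a N →
      ∀ᶠ m : ℕ in Filter.atTop, Odd (m + N) →
      c * ((Dn (Del a) m).card : ℝ) ≤ (((Dn (Del a) m).filter fun D =>
        ∀ (k' K' : Type) [Field k'] [Fintype k'] [Algebra k k'] [Field K'] [Algebra k'[X] K']
          [IsFractionRing k'[X] K'], Module.finrank k k' ∈ E → Exd k k' (Del a) →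
          Good K' (am k' a) (D.map (algebraMap k k'))).card : ℝ) := by
  obtain ⟨R1, hR1⟩ := h4 B
  obtain ⟨R2, hR2⟩ := h5 ε hε
  obtain ⟨R, hR⟩ : ∃ R : ℕ, R = max R1 R2 := ⟨_, rfl⟩
  obtain ⟨c, hc, hmain⟩ := h1 R
  refine ⟨c, {e | Odd e ∧ ∀ r : ℕ, r ∣ e → R < r → r ^ 8 ≤ 2 ^ orderOf (2 : ZMod r)}, hc, ?_, ?_, ?_⟩
  · intro e he hp
    exact ⟨he, fun r hr hRr => hR1 e he hp r hr (lt_of_le_of_lt (by rw [hR]; exact le_max_left _ _) hRr)⟩
  · intro x
    refine le_trans ?_ (hR2 R (by rw [hR]; exact le_max_right _ _) x)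
    rw [← Set.ncard_coe_finset]
    refine Nat.cast_le.2 (Set.ncard_le_ncard ?_ (Finset.finite_toSet _))
    rintro e ⟨he1, he2, he3, he4⟩
    rw [Finset.mem_coe, mem_filter]
    refine ⟨mem_Icc.2 ⟨he1, he2⟩, he3, ?_⟩
    by_contra hno
    push Not at hno
    exact he4 ⟨he3, hno⟩
  · intro k _ _ n a N H
    filter_upwards [hmain k n a N H (five_le H.hk H.hm)] with m hm ho
    refine (hm ho).trans (Nat.cast_le.2 (card_le_card fun D hD => ?_))
    rw [mem_filter] at hD ⊢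
    refine ⟨hD.1, ?_⟩
    intro k' K' _ _ _ _ _ _ hE hext
    obtain ⟨H', hDel, hDn⟩ := h3 k k' n a N H
    have htr := h2 k k' n a N H H' hext m ho D hD.1 hD.2.1 fun r hr1 hrd =>
      hD.2.2 r ⟨hext.odd.of_dvd_nat hrd, hr1, fun hRr => hE.2 r hrd hRr⟩
    exact good_of h6 K' H' ho (hDn m D hD.1) htr

end Pool.Agent.Q269.GJ
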