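import Pool.Agent.Q269.GR.Asm0
import Pool.Agent.Q269.GJ.Fin
import Pool.Agent.Q190.GJ.UORT
import Pool.Agent.Q190.GJ.UGAU
import Pool.Agent.Q190.GJ.UISO
import Pool.Agent.Q190.GJ.URST
import Pool.Agent.Q241.GJ.LAU
import Pool.Agent.Q241.GJ.LAG
import Pool.Agent.Q151.GJ.SUR
import Pool.Agent.Q151.GJ.LAR
import Pool.Agent.Q151.GJ.LB2
import Pool.Agent.Q251.GJ.CNY
import Pool.Agent.Q52.GJ.CNJ
import Pool.Agent.Q190.GJ.GEN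
import Pool.Agent.Q190.GJ.REA
import Pool.Agent.Q198.GJ.NIC
import Pool.Agent.Q53.GJ.CLA
import Pool.Agent.Q53.GJ.CLC
import Pool.Agent.Q224.GJ.SMD
import Pool.Agent.Q224.GJ.ABS
import Pool.Agent.Q52.GJ.RPS
import Pool.Agent.Q224.GJ.ENA
import Pool.Agent.Q257.GJ.EB1
import Pool.Agent.Q182.GJ.EB2
import Pool.Agent.Q257.GJ.TR
import Pool.Agent.Q224.GJ.SMT
import Pool.Agent.Q224.GJ.DNS
import Pool.Agent.Q224.GJ.END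
import Pool.Agent.Q251.GJ.HYM
import Pool.Agent.Q252.GJ.BAD
import Pool.Agent.Q26.GJ.RAD
import Pool.Agent.Q252.GJ.CNV
import Pool.Agent.Q241.GJ.TWA
import Pool.Agent.Q241.GJ.TWB
import Pool.Agent.Q26.GJ.CST
import Pool.Agent.Q174.GJ.EXT

/-!
# Assembly of the lemmas of project GJ

The module and the author of the proof of each statement can be read off from this file.
-/

set_option autoImplicit false

namespace Pool.Agent.Q269.GJ.Asm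

open Pool.Agent.Q269.GJ Pool.Agent.Q269.GR.Asm

theorem b_SUR : S_SUR := Pool.Agent.Q151.GJ.t_SUR
theorem b_LAU : S_LAU := Pool.Agent.Q241.GJ.t_LAU Pool.Agent.Q190.GJ.t_UORT
  Pool.Agent.Q190.GJ.t_UGAU Pool.Agent.Q190.GJ.t_UISO Pool.Agent.Q190.GJ.t_URST
theorem b_LAG : S_LAG := Pool.Agent.Q241.GJ.t_LAG
theorem b_LAR : S_LAR := Pool.Agent.Q151.GJ.t_LAR b_LAU b_LAG b_SUR a_UNR
theorem b_LB2 : S_LB2 := Pool.Agent.Q151.GJ.t_LB2 b_SUR a_UNR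
theorem b_CNY : S_CNY := Pool.Agent.Q251.GJ.t_CNY a_FLD a_SGD a_RTP a_IRC
theorem b_CNJ : S_CNJ := Pool.Agent.Q52.GJ.t_CNJ a_SYP a_UNR a_PRD
theorem b_GEN : S_GEN := Pool.Agent.Q190.GJ.t_GEN
theorem b_REA : S_REA := Pool.Agent.Q190.GJ.t_REA a_SYP a_UNR a_PRD
theorem b_NIC : S_NIC := Pool.Agent.Q198.GJ.t_NIC1 a_INJ a_UNR a_SYP a_IRC a_PRD
theorem b_CLA : S_CLA :=
  Pool.Agent.Q53.GJ.t_CLA a_TRF b_REA b_NIC b_LAR a_PRD a_XIR a_SYP a_UNR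
theorem b_CLC : S_CLC := Pool.Agent.Q53.GJ.t_CLC a_TRF b_REA b_LB2 b_CNY a_PRD a_XIR a_SYP
theorem b_SMD : S_SMD := Pool.Agent.Q224.GJ.t_SMD a_SMD a_ORD
theorem b_ABS : S_ABS := Pool.Agent.Q224.GJ.t_ABS b_SMD
theorem b_RPS : S_RPS := Pool.Agent.Q52.GJ.t_RPS b_CNJ a_XIR
theorem b_ENA : S_ENA :=
  Pool.Agent.Q224.GJ.t_ENA b_CLA a_DEC a_TYA a_ERA b_GEN a_TNP a_PRD a_AVP a_SMD
theorem b_EB1 : S_EB1 :=
  Pool.Agent.Q257.GJ.t_EB1 b_CLA a_DEC a_TYA a_ERA b_GEN a_TNP a_PRD a_AVP b_SMD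
theorem b_EB2 : S_EB2 :=
  Pool.Agent.Q182.GJ.t_EB2 b_CLC a_DEC a_TYB a_ERB a_AVP a_TNP a_PRD a_ORD
theorem b_ADM : S_ADM := Pool.Agent.Q257.GJ.t_ADM
theorem b_IMP : S_IMP := Pool.Agent.Q257.GJ.t_IMP
theorem b_END : S_END := Pool.Agent.Q224.GJ.t_END b_ENA b_EB1 b_EB2 b_ADM b_ABS b_RPS b_IMP b_SMD
theorem b_HYM : S_HYM := Pool.Agent.Q251.GJ.t_HYM
theorem b_BAD : S_BAD := Pool.Agent.Q252.GJ.t_BAD b_HYM a_FCD a_SYR a_FCT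
theorem b_RAD : S_RAD := Pool.Agent.Q26.GJ.t_RAD
theorem b_CNV : S_CNV := Pool.Agent.Q252.GJ.t_CNV
theorem b_TWA : S_TWA := Pool.Agent.Q241.GJ.t_TWA b_HYM b_BAD a_PAS a_FCD
theorem b_TWB : S_TWB := Pool.Agent.Q241.GJ.t_TWB b_TWA a_FCD a_SYR a_FCT
theorem b_CST : S_CST := Pool.Agent.Q26.GJ.t_CST a_XIR
theorem b_EXT : S_EXT :=
  Pool.Agent.Q174.GJ.t_EXT b_HYM b_BAD b_RAD b_CNV b_TWB b_CST a_FCT a_FCD a_SYR a_PAS a_XIR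
theorem b_SMT : S_SMT := Pool.Agent.Q224.GJ.t_SMT
theorem b_DNS : S_DNS := Pool.Agent.Q224.GJ.t_DNS a_ORD

end Pool.Agent.Q269.GJ.Asm
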