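import Pool.Agent.Q269.GJ.StL
import Pool.Agent.Q269.GR.StD
import Pool.Agent.Y164.HG.Imp

/-!
# Project GJ (helper269): definitions for the number theory

`k` is a finite field with `q` elements, `q` odd, `-1` a square; `a : Fin n → k[X]`; `Δ` is a nonzero polynomial, in the
end the product `Del a` of the differences (`Pool/Agent/Y164/HG/Geo.lean`).
-/

set_option autoImplicit false
set_option linter.all false

open scoped Classical
open Finset Polynomial

namespace Pool.Agent.Q269.GJ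

open Pool.Agent.Q269.GR (F2 cf ev Un Eb dl IsRt gg Bt AA MM ts HU HG Herm hv own Irn Dn pr Fr xi Pfam dg
  Ce IsCe sT erT FxR owR A0R tn XA XB)
open Pool.Agent.Y164.PS (L sg)

section systems

variable {k : Type} [Field k] [Fintype k] {n : ℕ}

/-- the weights at a prime: the symbols of the differences -/
noncomputable def xb (a : Fin n → k[X]) (P : k[X]) : Fin n → Fin n → F2 := fun l l' => L (a l - a l') P

variable {F : Type} [Field F] [Algebra F2 F]

/-- The system attached to a family of primes: the unknowns are indexed by the primes of degree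
divisible by `r`. -/
noncomputable def KF (r : ℕ) (ξ : F) (a : Fin n → k[X]) {ι : Type} [Fintype ι] (P : ι → k[X]) :
    Submodule F ({i : ι // r ∣ (P i).natDegree} → W0 n F) :=
  Kn (fun i j => hv r ξ (P j.1) (P i.1))
    (fun i => own r ξ (P i.1) + cf (∑ j, if j = i.1 then 0 else L (P j) (P i.1)))
    (fun i => xb a (P i.1))

/-- the system attached to a polynomial -/
noncomputable def KD (r : ℕ) (ξ : F) (a : Fin n → k[X]) (D : k[X]) :
    Submodule F ({i : {P : k[X] // P ∈ pr D} // r ∣ (i.1).natDegree} → W0 n F) :=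
  KF r ξ a (fun P : {P : k[X] // P ∈ pr D} => P.1)

/-- no element of order `r` occurs in the twist `D` -/
def GoodA (r : ℕ) (a : Fin n → k[X]) (D : k[X]) : Prop :=
  ∀ u : ℕ, Nat.Coprime u r → KD r (xi r ^ u) a D = ⊥

/-- the property `f` of the twists depends only on the degrees of the primes of `D`, on their symbols
and on the symbols of the divisors of `Δ` at them -/
def AdmD (Δ : k[X]) (f : k[X] → Prop) : Prop :=
  ∀ (m : ℕ) (P P' : Fin m → k[X]), Pfam Δ P → Pfam Δ P' →
    (∀ i, (P i).natDegree = (P' i).natDegree) →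
    (∀ i j, i ≠ j → L (P i) (P j) = L (P' i) (P' j)) →
    (∀ Q : k[X], Q.Monic → Irreducible Q → Q ∣ Δ → ∀ i, L Q (P i) = L Q (P' i)) →
    (f (∏ i, P i) ↔ f (∏ i, P' i))

/-- the weights of the elements of a cell -/
noncomputable def xR (a : Fin n → k[X]) {m : ℕ} (T : Fin m → k[X]) (i : Fin m) : Fin n → Fin n → F2 :=
  xb a (T i)

/-- the weights at the primes of degree `d` are equidistributed in a weak sense -/
def Eqd (a : Fin n → k[X]) (d : ℕ) : Prop :=
  ∀ φ : Fin n → Fin n → F2, (∃ l l', l < l' ∧ φ l l' ≠ 0) →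
    (1 / 3 : ℝ) * (Irn k d).card ≤ ((Irn k d).filter fun P => pai φ (xb a P) ≠ 0).card

/-- the number of the fixed indices of degree divisible by `r` -/
noncomputable def sfx {m : ℕ} (P0 : Fin m → k[X]) (mv : Finset (Fin m)) (r : ℕ) : ℕ :=
  (univ.filter fun i => i ∉ mv ∧ r ∣ dg P0 i).card

/-- the number of the moving indices of degree divisible by `r` -/
noncomputable def smv {m : ℕ} (P0 : Fin m → k[X]) (mv : Finset (Fin m)) (r : ℕ) : ℕ :=
  (mv.filter fun i => r ∣ dg P0 i).card

/-- the probability that the data are not nice -/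
noncomputable def nn (n : ℕ) {m : ℕ} (P0 : Fin m → k[X]) (mv : Finset (Fin m)) (r : ℕ) : ℝ :=
  2 ^ (n ^ 2 + 2 + CG n (sfx P0 mv r)) * (5 / 6) ^ smv P0 mv r

/-- the hypotheses of NIC for the order `r` -/
structure Hyn (a : Fin n → k[X]) {m : ℕ} (P0 : Fin m → k[X]) (mv : Finset (Fin m)) (r : ℕ) : Prop where
  eqd : ∀ j ∈ mv, Eqd a (dg P0 j)
  big : ∀ j ∈ mv, 12 * 2 ^ r * (∑ i ∈ univ.filter (· ∉ mv), (dg P0 i : ℝ) + 2) ≤
      Real.sqrt ((Fintype.card k : ℝ) ^ dg P0 j)
  le : sfx P0 mv r ≤ smv P0 mv r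

/-- the exponent in the number of types -/
noncomputable def eT (n : ℕ) (Δ : k[X]) (m : ℕ) (R : Finset (ℕ × ℕ)) : ℕ :=
  (m + 1) * (2 + ∑ p ∈ R, p.1) + Δ.natDegree + n ^ 2 + 3

end systems

/-- A finite set of pairs `(r, u)`, standing for the roots of unity `ξ_r ^ u` of odd order `r > 1`; they and their
inverses are not conjugate for different pairs. -/
def IsR (R : Finset (ℕ × ℕ)) : Prop := (∀ p ∈ R, Odd p.1 ∧ 1 < p.1 ∧ Nat.Coprime p.2 p.1) ∧
  ∀ p ∈ R, ∀ p' ∈ R, p ≠ p' → minpoly F2 (xi p.1 ^ p.2) ≠ minpoly F2 (xi p'.1 ^ p'.2) ∧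
    minpoly F2 (xi p.1 ^ p.2) ≠ minpoly F2 (xi p'.1 ^ p'.2)⁻¹

section geo

open Pool.Agent.Y164.HG (Geo Tau QQ EW AT BT Triv)

/-- The 2-Selmer group over `k(t)` is given by the 2-torsion, in terms of the symbols: the class `σ` of `D` and the
system `Triv` of `Pool/Agent/Y164/HG` for the prime factors of `D`. -/
def TR {k : Type} [Field k] [Fintype k] {n : ℕ} {a : Fin n → k[X]} {N : ℕ} (H : Geo a N) (D : k[X]) :
    Prop :=
  haveI : Fact (Odd n) := ⟨H.hn⟩
  ∃ σ : Tau a → F2, (∀ s, σ s + ∑ i, BT (QQ a) (fun P : {P : k[X] // P ∈ pr D} => P.1) i s +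
      H.comb.gg s = 0) ∧
    Triv (H.dat σ) (AT fun P : {P : k[X] // P ∈ pr D} => P.1)
      (BT (QQ a) fun P : {P : k[X] // P ∈ pr D} => P.1)
      (fun P : {P : k[X] // P ∈ pr D} => (P.1.natDegree : F2))

end geo

/-- the orders which are taken into account -/
def OO (R r : ℕ) : Prop := Odd r ∧ 1 < r ∧ (R < r → r ^ 8 ≤ 2 ^ orderOf (2 : ZMod r))

/-- the sum of the probabilities of the orders beyond `y` -/
noncomputable def tl (R y : ℕ) : ℝ := ∑' r : ℕ, if OO R r ∧ y < r then (r : ℝ) * dl r else 0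

end Pool.Agent.Q269.GJ
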