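import Pool.Agent.Q269.GR.StA

/-!
# Project GJ (helper269): hyperelliptic Jacobians of every genus in constant field extensions

Definitions for the linear algebra. `F` is a finite field of characteristic two, `n` is odd,
`n ≥ 3`, `W0 n F` is the space of the vectors `w : Fin n → F` with `∑ w l = 0` (of dimension `n - 1`; the dot
product is alternating and nondegenerate on it).
-/

set_option autoImplicit false
set_option linter.all false

open scoped Classical
open Finset

namespace Pool.Agent.Q269.GJ

open Pool.Agent.Q269.GR (F2 cf ev Un Eb dl IsRt gg Bt AA MM ts)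

/-- the vectors with sum zero -/
def W0 (n : ℕ) (F : Type) [Field F] : Submodule F (Fin n → F) where
  carrier := {v | ∑ l, v l = 0}
  add_mem' := by
    intro a b ha hb
    have ha' : ∑ l, a l = 0 := ha
    have hb' : ∑ l, b l = 0 := hb
    show ∑ l, (a l + b l) = 0
    rw [sum_add_distrib, ha', hb', add_zero]
  zero_mem' := by
    show ∑ l : Fin n, (0 : F) = 0
    exact sum_const_zero
  smul_mem' := by
    intro c v hv
    have hv' : ∑ l, v l = 0 := hv
    show ∑ l, (c * v l) = 0
    rw [← mul_sum, hv', mul_zero]

theorem W0_sum {n : ℕ} {F : Type} [Field F] (v : W0 n F) : ∑ l, v.1 l = 0 := v.2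

noncomputable instance {n : ℕ} {F : Type} [Field F] [Fintype F] : Fintype (W0 n F) :=
  Fintype.ofFinite _

section lin

variable {F : Type} [Field F] [Algebra F2 F] {n : ℕ}

/-- The Laplacian with the weights `x l l'`: `(lap x w) l = ∑_l' x_ll' (w_l + w_l')`. -/
noncomputable def lap (x : Fin n → Fin n → F2) (w : Fin n → F) (l : Fin n) : F :=
  ∑ l', cf (x l l') * (w l + w l')

/-- The left side of the `i`-th equation: `∑_(j ≠ i) M_ij w_j + d_i w_i + lap (x_i) w_i`. -/
noncomputable def eqn {J : Type} [Fintype J] (M : J → J → F) (dd : J → F)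
    (x : J → Fin n → Fin n → F2) (w : J → W0 n F) (i : J) : Fin n → F :=
  ∑ j, (if j = i then (0 : F) else M i j) • (w j).1 + dd i • (w i).1 + lap (x i) (w i).1

theorem lap_add (x : Fin n → Fin n → F2) (v w : Fin n → F) : lap x (v + w) = lap x v + lap x w := by
  funext l
  simp only [lap, Pi.add_apply]
  rw [← sum_add_distrib]
  refine sum_congr rfl fun l' _ => ?_
  ring

theorem lap_smul (x : Fin n → Fin n → F2) (t : F) (w : Fin n → F) : lap x (t • w) = t • lap x w := by
  funext l
  simp only [lap, Pi.smul_apply, smul_eq_mul]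
  rw [mul_sum]
  refine sum_congr rfl fun l' _ => ?_
  ring

/-- The kernel of the system with off-diagonal entries `M`, diagonal `dd` and weights `x`. -/
noncomputable def Kn {J : Type} [Fintype J] (M : J → J → F) (dd : J → F)
    (x : J → Fin n → Fin n → F2) : Submodule F (J → W0 n F) where
  carrier := {w | ∀ i, eqn M dd x w i = 0}
  zero_mem' := by
    intro i
    have h : lap (x i) (0 : Fin n → F) = 0 := by
      have := lap_smul (x i) (0 : F) (0 : Fin n → F)
      rwa [zero_smul, zero_smul] at this
    simp only [eqn, Pi.zero_apply, ZeroMemClass.coe_zero, smul_zero, sum_const_zero, zero_add, h]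
  add_mem' := by
    intro w w' hw hw' i
    have h : eqn M dd x (w + w') i = eqn M dd x w i + eqn M dd x w' i := by
      simp only [eqn, Pi.add_apply, Submodule.coe_add, smul_add, sum_add_distrib, lap_add]
      abel
    rw [h, hw i, hw' i, add_zero]
  smul_mem' := by
    intro t w hw i
    have h : eqn M dd x (t • w) i = t • eqn M dd x w i := by
      simp only [eqn, Pi.smul_apply, Submodule.coe_smul, smul_add, Finset.smul_sum, lap_smul]
      congr 1
      congr 1
      · exact sum_congr rfl fun j _ => smul_comm _ _ _
      · exact smul_comm _ _ _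
    rw [h, hw i, smul_zero]

theorem mem_Kn {J : Type} [Fintype J] {M : J → J → F} {dd : J → F} {x : J → Fin n → Fin n → F2}
    {w : J → W0 n F} : w ∈ Kn M dd x ↔ ∀ i, eqn M dd x w i = 0 := Iff.rfl

end lin

/-- symmetric weights -/
def Sy {n : ℕ} (x : Fin n → Fin n → F2) : Prop := ∀ l l', x l l' = x l' l

/-- the pairing of weights -/
def pai {n : ℕ} (φ x : Fin n → Fin n → F2) : F2 := ∑ l, ∑ l', if l < l' then φ l l' * x l l' else 0

/-- the condition on the weights: every nonzero linear form `φ` is nonzero at at least `m` of the `x i`, `i ∈ Λ` -/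
def Gen {J : Type} {n : ℕ} (Λ : Finset J) (x : J → Fin n → Fin n → F2) (m : ℕ) : Prop :=
  ∀ φ : Fin n → Fin n → F2, (∃ l l', l < l' ∧ φ l l' ≠ 0) → m ≤ (Λ.filter fun i => pai φ (x i) ≠ 0).card

/-- the constant in the condition on the weights -/
def CG (n σ : ℕ) : ℕ := 4 * n * σ + 16 * n ^ 2 + 64

end Pool.Agent.Q269.GJ
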