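import Pool.Agent.Q269.GJ.Lin

/-!
# Project GJ: lemma jobs in linear algebra

Notation: `n` odd, `n ≥ 3`, `F` a finite field with `Q²` elements of characteristic two, `x̄ = x^Q` (an automorphism
of order two of `F`; `F₀ = {x | x̄ = x}` has `Q` elements), `tr : F → F2` the trace, `ts x = (-1)^(tr x)`. The dot product
`v · w = ∑_l v_l w_l` is nondegenerate on `W0 n F` (`v · w = 0` for all `w` means that `v` is constant, `∑ v_l = n v_1 = v_1`).
`lap x` is symmetric for the dot product for symmetric `x` and maps into `W0 n F`. `V n F = W0 n F × W0 n F`, elements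
`z = (w, v)`. These jobs generalise the jobs of the same name of project GR (`Pool/Agent/Q269/GR/StA.lean`), where
`n = 3`; the proofs there (see the theorem names in the docstrings) can be copied and adapted.
-/

set_option autoImplicit false
set_option linter.all false

open scoped Classical
open Finset

namespace Pool.Agent.Q269.GJ

open Pool.Agent.Q269.GR (F2 cf ev Un Eb dl IsRt gg Bt AA MM ts HU HG Herm)

/-! ### the unitary case -/

section unitary

variable {F : Type} [Field F] {n : ℕ}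

abbrev V (n : ℕ) (F : Type) [Field F] : Type := W0 n F × W0 n F

/-- the Hermitian form `⟨z, z'⟩ = v̄ · w' + v' · w̄`, additive in both variables, `F`-linear in `z'`,
conjugate linear in `z`, `⟨z', z⟩` is the conjugate of `⟨z, z'⟩`; nondegenerate -/
noncomputable def hf (Q : ℕ) (z z' : V n F) : F :=
  ∑ l, (z.2.1 l ^ Q * z'.1.1 l + z'.2.1 l * z.1.1 l ^ Q)

variable [Algebra F2 F]

/-- the Hermitian forms attached to the weights: `v̄ · lap w` plus its conjugate -/
noncomputable def gx (Q : ℕ) (x : Fin n → Fin n → F2) (z : V n F) : F :=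
  ∑ l, (z.2.1 l ^ Q * lap x z.1.1 l + z.2.1 l * lap x z.1.1 l ^ Q)

/-- the local weight -/
noncomputable def qf (Q : ℕ) (d : F) (x : Fin n → Fin n → F2) (z : V n F) : F :=
  ∑ l, z.2.1 l ^ Q * (d * z.1.1 l + lap x z.1.1 l)

end unitary

/-- **JOB GJ-UORT.** The mean number of solutions as a character sum. (GR: `Pool/Agent/Q65/GR/UORT.lean`.)
Proof. For `w : J → W0` and one index `i`: `∑_(v : W0) ts (v̄ · eqn_i(w)) = |F|^(n-1)` if `eqn_i(w) = 0` and `0` if not
(`eqn_i(w) ∈ W0` as `x i` is symmetric; `v ↦ v̄` is a bijection of `W0`, the dot product is nondegenerate on `W0` and the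
trace form is nondegenerate). Hence `|F|^((n-1)|J|) #Kn = ∑_w ∑_v ∏_i ts (v̄_i · eqn_i(w))`, a sum over
`z = (w, v) : J → V n F`. Here `∑_i v̄_i · eqn_i = ∑_i qf (z_i) + ∑_(i<j) (M_ij v̄_i·w_j + M_ji v̄_j·w_i)`, and
`M_ji = M_ij^Q`, `tr (x^Q) = tr x`, so the pair `i < j` contributes `tr (M_ij (v̄_i·w_j + v_j·w̄_i)) =
tr (M_ij ⟨z_i, z_j⟩)`. For `i, j ∉ S` the entry `M_ij = s i j` runs through `F`: the sum over `s i j` is `|F|` if
`⟨z_i, z_j⟩ = 0` and `0` if not; the other entries of `s` do not occur. -/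
def S_UORT : Prop := ∀ (F : Type) [Field F] [Fintype F] [Algebra F2 F] (Q : ℕ),
  Fintype.card F = Q ^ 2 → ∀ n : ℕ, Odd n → ∀ (J : Type) [Fintype J] [LinearOrder J] (S : Finset J)
  (B : J → J → F) (dd : J → F) (x : J → Fin n → Fin n → F2), (∀ i, Sy (x i)) →
  (∀ i j, B j i = B i j ^ Q) →
  (Fintype.card F : ℝ) ^ ((n - 1) * Fintype.card J) *
      ∑ s : J → J → F, (Nat.card (Kn (HU S B Q s) dd x) : ℝ) =
    (Fintype.card (J → J → F) : ℝ) *
      ∑ z ∈ (univ : Finset (J → V n F)).filter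
        (fun z => ∀ i j, i < j → i ∉ S → j ∉ S → hf Q (z i) (z j) = 0),
        ts (∑ i, qf Q (dd i) (x i) (z i) +
          ∑ i, ∑ j, if i < j ∧ (i ∈ S ∨ j ∈ S) then B i j * hf Q (z i) (z j) else 0)

/-- **JOB GJ-UGAU.** Gauss sums on a maximal isotropic subspace. (GR: `Pool/Agent/Q65/GR/UGAU.lean`.)
Proof. `tr x̄ = tr x`; `tr (e) = 0` for `e ∈ F₀` (`F₀ = {y + ȳ}`: kernel = image of `x ↦ x + x̄` by counting). Put
`u(z) = v̄ · w`; for `z ∈ U`: `0 = ⟨z, z⟩ = u + ū`, so `d u ∈ F₀` (`d̄ = d`), and `tr (qf z) = tr (e z)`, `e z = v̄ · lap w`;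
`e + ē = gx z`. (1) If `gx = 0` on `U` then `e z ∈ F₀`, `tr (e z) = 0`.
(2) `f z = ts (qf z + ⟨z₀, z⟩)` on `U`; `(∑_(z∈U) f z)² = ∑_(h∈U) ∑_z f (z + h) f z` and
`f (z + h) f z = f h · ts (G(z, h))`, `G(z, h) = v̄(z) · lap w(h) + v(h) · (lap w(z))^Q` (use `tr x̄ = tr x` for the second
term; the terms with `d` give `tr (d ⟨z, h⟩) = 0`), which is `F`-linear in `h` and conjugate linear in `z`, with
`G(z, z) = gx z`. So the inner sum is `|U|` if `G(z, h) = 0` for all `z ∈ U` (replace `z` by `λ z` to go from the trace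
to the value) and `0` if not. The set `R` of these `h` is an `F`-subspace of `U`, not `U` (as `G(z₁, z₁) ≠ 0` for some
`z₁`), so `|R| ≤ |F|^(n-2)` and `|∑ f|² ≤ |U| |R| ≤ |F|^(2(n-1)-1) = (|F|^(n-1)/Q)²`. -/
def S_UGAU : Prop := ∀ (F : Type) [Field F] [Fintype F] [Algebra F2 F] (Q : ℕ),
  Fintype.card F = Q ^ 2 → ∀ n : ℕ, Odd n → 3 ≤ n → ∀ (U : Submodule F (V n F)),
  Nat.card U = Fintype.card F ^ (n - 1) →
  (∀ z ∈ U, ∀ z' ∈ U, hf Q z z' = 0) → ∀ (d : F) (x : Fin n → Fin n → F2), d ^ Q = d → Sy x →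
  ((∀ z ∈ U, gx Q x z = 0) → ∀ z ∈ U, ts (qf Q d x z) = 1) ∧
  ((∃ z ∈ U, gx Q x z ≠ 0) → ∀ z₀ : V n F,
    |∑ z ∈ (univ : Finset (V n F)).filter (· ∈ U), ts (qf Q d x z + hf Q z₀ z)| ≤
      (Fintype.card F : ℝ) ^ (n - 1) / Q)

/-- **JOB GJ-UISO.** The maximal isotropic subspaces which are isotropic for all the forms `gx`.
Proof. Take for `x` the indicator of the pairs `(l, l')`, `(l', l)`: `gx Q x z = h(π z, π z)`, where
`π = π_(ll') : V → F²`, `z ↦ (w_l + w_l', v_l + v_l')` and `h((α, β), (α', β')) = β̄ α' + β' ᾱ` is nondegenerate on `F²`.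
Polarise (`z + λ z'` for all `λ ∈ F`): the image `I_(ll')` of `U` is totally isotropic for `h`, so `dim I_(ll') ≤ 1`. Let
`l₀` be the last index. `z ↦ (π_(l l₀) z)_(l ≠ l₀)` is injective on `V` (if all `w_l = w_(l₀)` then `∑ w_l = n w_(l₀) = 0`,
`n` odd) into a product of `n - 1` spaces of dimension at most one, and `dim U = n - 1`: so all `I_(l l₀)` are lines and
`U = ⊕ I_(l l₀)`: for all `s_l ∈ I_(l l₀)` there is a `z ∈ U` with `π_(l l₀) z = s_l` for all `l ≠ l₀`. For `l ≠ l'`, both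
`≠ l₀` (`n ≥ 3`): `π_(l l') z = s_l + s_l'` with `s_l ∈ I_(l l₀)`, `s_l' ∈ I_(l' l₀)` arbitrary, so both lines are contained in
`I_(l l')`, of dimension at most one: all the lines are equal to one line `I`, isotropic for `h`, and `U` is determined by
`I` (`U = {z | π_(l l₀) z ∈ I for all l}`). The isotropic lines of `h`: `F (0, 1)` and `F (1, β)` with `β̄ + β = 0`, i.e. `β ∈ F₀`:
`Q + 1` lines. -/
def S_UISO : Prop := ∀ (F : Type) [Field F] [Fintype F] [Algebra F2 F] (Q : ℕ),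
  Fintype.card F = Q ^ 2 → ∀ n : ℕ, Odd n → 3 ≤ n →
  {U : Submodule F (V n F) | Nat.card U = Fintype.card F ^ (n - 1) ∧ (∀ z ∈ U, ∀ z' ∈ U, hf Q z z' = 0) ∧
    ∀ x : Fin n → Fin n → F2, Sy x → ∀ z ∈ U, gx Q x z = 0}.ncard ≤ Q + 1

/-- **JOB GJ-URST.** The families of pairwise orthogonal vectors. (GR: `Pool/Agent/Q65/GR/URST.lean`.)
Proof. `m = n - 1`, `dim V = 2m`. `A = {i | ⟨z_i, z_i⟩ ≠ 0}`: the `z_i`, `i ∈ A`, are linearly independent (pairwise
orthogonal), so `|A| ≤ 2m`. `W` = the span of the `z_i`, `i ∉ A`, is totally isotropic, so `dim W ≤ m`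
(`W ⊆ W^⊥`, `dim W^⊥ = 2m - dim W`, the form is nondegenerate). If `dim W = m` then `W^⊥ = W`; an `i ∈ A` would have
`z_i ∈ W^⊥ = W`, `⟨z_i, z_i⟩ = 0`, contradiction; so `A = ∅` and `W` is the span of all `z_i`: excluded. So
`dim W ≤ m - 1 = n - 2`. The number of families is at most: the number of `A` (at most `(|J|+1)^(2m)`), times the values
on `A` (at most `|V|^(2m) = |F|^(4m²)`), times the number of the `W` (at most `|V|^(m-1) ≤ |F|^(2m²)`, choose `m - 1`
generators), times `|F|^((m-1)|J|)` for the other values. -/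
def S_URST : Prop := ∀ (F : Type) [Field F] [Fintype F] [Algebra F2 F] (Q : ℕ),
  Fintype.card F = Q ^ 2 → ∀ n : ℕ, Odd n → 3 ≤ n → ∀ (J : Type) [Fintype J],
  ((univ : Finset (J → V n F)).filter fun z => (∀ i j, i ≠ j → hf Q (z i) (z j) = 0) ∧
    ¬ (Nat.card (Submodule.span F (Set.range z)) = Fintype.card F ^ (n - 1) ∧
      ∀ z₁ ∈ Submodule.span F (Set.range z), ∀ z₂ ∈ Submodule.span F (Set.range z), hf Q z₁ z₂ = 0)).card ≤
    (Fintype.card J + 1) ^ (2 * (n - 1)) *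
      Fintype.card F ^ (6 * (n - 1) ^ 2 + (n - 2) * Fintype.card J)

/-- **JOB GJ-LAU.** The mean number of elements of the kernel in the unitary case. The diagonal, the
weights and the entries with an index in `S` are fixed; only the entries in `Sᶜ × Sᶜ` are random.
(`t_LAU (h1 : S_UORT) (h2 : S_UGAU) (h3 : S_UISO) (h4 : S_URST) : S_LAU`. GR: `Pool/Agent/Q24/GR/LAU.lean`.)
Proof. `m = n - 1`, `f = |F| = Q² ≥ 4`, `σ = |S|`, `λ = |Sᶜ| ≥ M = CG n σ = 4nσ + 16n² + 64` (by `Gen`). By UORT the mean is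
`f^(-m|J|) ∑_z ts (...)` over the `z : J → V` with `⟨z_i, z_j⟩ = 0` for `i ≠ j`, `i, j ∉ S`. Split `z = (z_S, z_Λ)`.
(I) `z_Λ` for which the span `W` of the `z_i`, `i ∉ S`, is not (totally isotropic with `f^m` elements): by URST at
most `(λ+1)^(2m) f^(6m² + (m-1)λ)`, times `f^(2mσ)` for `z_S`: contribution at most
`(λ+1)^(2m) f^(6m² + mσ - λ) ≤ 2^(λ/2) f^(-5λ/8) ≤ 2^(-3λ/4)` (`6m² + mσ ≤ 3λ/8`, `(λ+1)^(2m) ≤ 2^(λ/2)`).
(II) the others: `∑_U ∑_(z : W = U)`, `U` totally isotropic with `f^m` elements. For each `U` the sum over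
`W = U` is the sum over all `z_Λ ∈ U^Λ` minus the sum over the `z_Λ ∈ U^Λ` with `W ≠ U`; the latter lie in one
of the at most `f^m` hyperplanes of `U`: at most `f^m f^((m-1)λ) f^(2mσ)`, and there are at most `|V|^m = f^(2m²)`
subspaces `U`: contribution at most `f^(m + 2m² + mσ - λ)`, tiny.
(III) `T_U = ∑_(z_S) ∑_(z_Λ ∈ U^Λ)`. For fixed `z_S` this is `ts(...)` of the part of `S`, times
`∏_(j∉S) ∑_(z∈U) ts (qf z + ⟨Z_j, z⟩)` with `Z_j = ∑_(κ∈S) B̄_κj z_κ`.
(III.a) if some `gx Q x`, `x` symmetric, does not vanish on `U`: the set of the symmetric `x` with `gx Q x = 0` on `U` is a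
proper subspace over `F2`, so it is contained in `{x | pai φ x = 0}` for some `φ` with `φ l l' ≠ 0` for some `l < l'`. By
`Gen` for at least `M` of the `j ∉ S` we have `gx Q (x j) ≠ 0` on `U`, and the factor has absolute value at most `f^m/Q`
(UGAU (2)), the others at most `f^m`. So `|T_U| ≤ f^(2mσ) f^(mλ) Q^(-M)`, and the sum over the at most `f^(2m²)`
subspaces divided by `f^(m(σ+λ))` is at most `f^(2m² + mσ) Q^(-M) = Q^(4m² + 2mσ - M) ≤ Q^(-64)`.
(III.b) if all `gx Q x = 0` on `U` (at most `Q + 1` subspaces by UISO): `ts (qf z) = 1` for `z ∈ U` (UGAU (1)), so the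
`j`-th factor is `∑_(z∈U) ts ⟨Z_j, z⟩ = |U|` if `Z_j ∈ U^⊥ = U` and `0` if not. If it is not zero for all `j`, then
`∑_κ B̄_κj z_κ ∈ U` for all `j ∉ S`; by `inj` (apply conjugation and a linear form on `V/U`) all `z_κ ∈ U`; then the
part of `S` is `ts (∑_κ qf (z_κ) + ∑ B_κκ' ⟨z_κ, z_κ'⟩) = 1`. So `T_U = f^(mλ) f^(mσ)` and the contribution of
`U` is exactly `1`.
Total at most `Q + 1 + tiny ≤ Q + 9/8`. -/
def S_LAU : Prop := ∀ (F : Type) [Field F] [Fintype F] [Algebra F2 F] (Q : ℕ),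
  Fintype.card F = Q ^ 2 → ∀ n : ℕ, Odd n → 3 ≤ n → ∀ (J : Type) [Fintype J] [LinearOrder J]
  (S : Finset J) (B : J → J → F) (dd : J → F) (x : J → Fin n → Fin n → F2), (∀ i, Sy (x i)) →
  (∀ i j, B j i = B i j ^ Q) → (∀ i, dd i ^ Q = dd i) →
  (∀ v : J → F, (∀ i, i ∉ S → v i = 0) → (∀ j, j ∉ S → ∑ i, v i * B i j = 0) → v = 0) →
  Gen Sᶜ x (CG n S.card) →
  ∑ s : J → J → F, (Nat.card (Kn (HU S B Q s) dd x) : ℝ) ≤
    (Q + 9 / 8) * (Fintype.card (J → J → F) : ℝ)

/-! ### the other case -/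

/-- **JOB GJ-LAG.** The mean number of elements of the kernel for a matrix without symmetry (all the
entries in `Sᶜ × Sᶜ` are random and independent). (GR: `Pool/Agent/Q24/GR/LAG.lean`, by hand for `n = 3`; here the
argument is organised by the coloops.) `Λ = Sᶜ`, `σ = |S|`, `λ = |Λ| ≥ M = CG n σ`, `m = n - 1`, `f = |F| ≥ 4`.
Proof. `∑_s #Kn / #s = ∑_w p(w)`, `p(w)` = the probability (over `s`) that `w = (w_j)` solves the system. The rows are
independent; the rows `κ ∈ S` are fixed. For `i ∈ Λ` the `i`-th equation says that the random vector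
`∑_(j∈Λ, j≠i) s_ij w_j` has a given value, so it has probability `0` or `f^(-ρ_i)`, `ρ_i = dim span {w_j : j ∈ Λ, j ≠ i}`. Let
`ρ = dim span {w_j : j ∈ Λ}` and `C = {i ∈ Λ : ρ_i < ρ}` (then `ρ_i = ρ - 1`), `c = |C|`. The `w_i`, `i ∈ C`, are linearly
independent modulo the span of the `w_j`, `j ∈ Λ \ C`, so the latter has dimension `ρ - c`. `p(w) ≤ f^(-ρλ + c)`.
(0) `ρ = 0`: the rows `i ∈ Λ` give `∑_κ B_iκ w_κ = 0`, so `w = 0` by `inj2`. Contribution `1`.
(1) `c ≥ 1`: given `ρ ≤ m` and `c` the number of the `w_Λ` is at most `λ^c f^(mc)` (the set `C` and the values on it) times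
`f^(m(ρ-c)) f^((ρ-c)λ)` (generators of the span of the others, the others), the number of the `w_S` is `f^(mσ)`: contribution at
most `λ^c f^(mρ + mσ + c - cλ) ≤ f^(m² + mσ) (λ f^(1-λ))^c`; at most `(m+1)²` pairs `(ρ, c)`: tiny.
(2) `c = 0`, `1 ≤ ρ < m`: the span `L` of the `w_j`, `j ∈ Λ`, is a proper nonzero subspace of `W0`. The set of the symmetric
`x` with `lap x L ⊆ L` is a proper subspace over `F2` (if it is everything take for `x` the indicator of the pair `l, l'`: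
`lap x w = (w_l + w_l') (e_l + e_l')`; `L ≠ 0` contains a `w` with `w_l ≠ w_l'` for some `l, l'`, as constants in `W0` are zero;
so `e_l + e_l' ∈ L`, then `lap` for the pair `l', l''` gives `e_l' + e_l'' ∈ L` for all `l'' ≠ l`, and so on: all
`e_a + e_b ∈ L`, `L = W0`), so it is contained in `{pai φ = 0}` for some `φ ≠ 0` as in LAU, and by `Gen` at least `M` of the
`i ∈ Λ` have `lap (x i) L ⊄ L`. For these `i` the `i`-th equation modulo `L`:
`∑_κ B_iκ w_κ + lap (x i) w_i ∈ L`, determines `w_i ∈ L` modulo the proper subspace `{w ∈ L : lap (x i) w ∈ L}` of `L` given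
`w_S`. So there are at most `f^(mρ) f^(mσ) f^(ρλ - M)` such `w` (generators of `L`, `w_S`, `w_Λ`), contribution at most
`f^(m² + mσ - M)`, tiny.
(3) `c = 0`, `ρ = m`: the `w` must satisfy the rows `κ ∈ S`: for given `(w_κ)` the vectors `∑_(j∈Λ) B_κj w_j`, `κ ∈ S`, are
prescribed, and `w_Λ ↦ (∑_j B_κj w_j)_κ` is surjective by `inj1`, so there are `f^(mσ + mλ - mσ) = f^(mλ)` such `w` at
most, each with `p(w) ≤ f^(-mλ)`. Contribution at most `1`.
All the error terms together are at most `1/8`. -/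
def S_LAG : Prop := ∀ (F : Type) [Field F] [Fintype F] [Algebra F2 F], 4 ≤ Fintype.card F →
  ∀ n : ℕ, Odd n → 3 ≤ n → ∀ (J : Type) [Fintype J] (S : Finset J) (B : J → J → F) (dd : J → F)
  (x : J → Fin n → Fin n → F2), (∀ i, Sy (x i)) →
  (∀ v : J → F, (∀ i, i ∉ S → v i = 0) → (∀ j, j ∉ S → ∑ i, v i * B i j = 0) → v = 0) →
  (∀ v : J → F, (∀ i, i ∉ S → v i = 0) → (∀ j, j ∉ S → ∑ i, v i * B j i = 0) → v = 0) →
  Gen Sᶜ x (CG n S.card) →
  ∑ s : J → J → F, (Nat.card (Kn (HG S B s) dd x) : ℝ) ≤ (17 / 8) * (Fintype.card (J → J → F) : ℝ)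

/-! ### evaluations -/

/-- the roots of unity `ξ c` and their inverses are not conjugate over `F2` for different `c` -/
def Ncj {κ : Type} {F : κ → Type} [∀ c, Field (F c)] [∀ c, Algebra F2 (F c)] (ξ : ∀ c, F c) : Prop :=
  ∀ c c', c ≠ c' → minpoly F2 (ξ c) ≠ minpoly F2 (ξ c') ∧ minpoly F2 (ξ c) ≠ minpoly F2 (ξ c')⁻¹

/-- **JOB GJ-SUR.** All the evaluations of a vector of bits are independent. (GR: `t_SUR` in
`Pool/Agent/Q285/GR/SUR.lean`, one root of unity for each order; here several of the same order are allowed if they and their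
inverses are not conjugate.)
Proof. Identify `s : Fin g → F2` with the polynomial `∑ s_c X^c` modulo `X^g - 1`, which is separable over `F2`
(`g` odd). Let `π_i`, `π'_i` be the minimal polynomials of `ξ_i`, `ξ_i⁻¹` over `F2`: irreducible divisors of `X^g - 1` of
degree `f = orderOf (2 : ZMod (r i))`, as is `X - 1`; all of these are different except that `π_i = π'_i` if `Un (r i)`
(for `¬ Un (r i)` they are different, see the proof of `t_SUR`). Chinese remainder theorem. -/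
def S_SUR : Prop := ∀ (g : ℕ), Odd g → ∀ (κ : Type) [Fintype κ] (r : κ → ℕ), (∀ c, r c ∣ g) →
  ∀ (F : κ → Type) [∀ c, Field (F c)] [∀ c, Fintype (F c)] [∀ c, Algebra F2 (F c)] (ξ : ∀ c, F c),
  (∀ c, IsRt (r c) (ξ c)) → Ncj ξ → ∀ (b : F2) (y : ∀ c, F c × F c),
  (∀ c, Un (r c) → (y c).2 = (y c).1 ^ 2 ^ (orderOf (2 : ZMod (r c)) / 2)) →
  ∃ s : Fin g → F2, ∑ i, s i = b ∧ ∀ c, ev (ξ c) s = (y c).1 ∧ ev (ξ c)⁻¹ s = (y c).2

/-! ### the model of a cell -/

section model

variable {ι : Type} [LinearOrder ι] (N : ℕ) (d : ι → ℕ) (mv : Finset ι)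
variable {F : Type} [Field F] [Algebra F2 F] [Fintype ι] {n : ℕ}

/-- the kernel for the order `r` -/
noncomputable def KM (r : ℕ) (A0 : ι → ι → F2) (Fx : ι → ι → F) (ow : ι → F)
    (x : ι → Fin n → Fin n → F2) (ξ : F) (s : Bt N d) : Submodule F ({i : ι // r ∣ d i} → W0 n F) :=
  Kn (fun i j => MM N d mv Fx ξ s i.1 j.1)
    (fun i => ow i.1 + cf (∑ j, if j = i.1 then 0 else AA N d mv A0 s i.1 j))
    (fun i => x i.1)

/-- the data for the order `r` are good -/
structure Nice (r : ℕ) (Fx : ι → ι → F) (x : ι → Fin n → Fin n → F2) : Prop where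
  inj1 : ∀ v : ι → F, (∀ i, ¬ (i ∉ mv ∧ r ∣ d i) → v i = 0) →
    (∀ j ∈ mv, r ∣ d j → ∑ i, v i * Fx i j = 0) → v = 0
  inj2 : ∀ v : ι → F, (∀ i, ¬ (i ∉ mv ∧ r ∣ d i) → v i = 0) →
    (∀ j ∈ mv, r ∣ d j → ∑ i, v i * Fx j i = 0) → v = 0
  gen : Gen (mv.filter fun i => r ∣ d i) x
    (CG n ((univ : Finset ι).filter fun i => i ∉ mv ∧ r ∣ d i).card)

end model

/-- **JOB GJ-LAR.** The kernels for different roots of unity are independent given the trivial symbols.
(`t_LAR (h1 : S_LAU) (h2 : S_LAG) (h3 : S_SUR) (h4 : Pool.Agent.Q269.GR.S_UNR) : S_LAR`. GR: `t_LAR2` in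
`Pool/Agent/Q285/GR/LAR.lean`.)
Proof. By SUR the additive map `s ↦ (A_ij)_(i<j in mv), (ev ξ_c (s i j), ev ξ_c⁻¹ (s i j))_(i<j in mv, c, r c ∣ d i, r c ∣ d j)` is
surjective onto the product of the value sets, so all its fibres have the same cardinality: given the trivial symbols
`(A_ij)` the families for the different `c` are independent and uniform (Hermitian for `Un (r c)`, arbitrary pairs
otherwise). The event `KM = ⊥` for `c` depends on the family for `c` and on `A` only. For each fixed `A` its probability is at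
least `1 - dl (r c) ≥ 0`: LAU / LAG with `J = {i // r c ∣ d i}`, `S` = the indices not in `mv`, and a nonzero kernel has at
least `|F c| = 2^f` elements, so `(|F c| - 1) #{KM ≠ ⊥} ≤ ∑ (#KM - 1) ≤ (Eb (r c) - 1) #`. So the number of the `s` with `f (A s)` and all
`KM = ⊥` is at least `∏ (1 - dl (r c))` times the number of the `s` with `f (A s)`. -/
def S_LAR : Prop := ∀ (ι : Type) [Fintype ι] [LinearOrder ι] (N : ℕ) (d : ι → ℕ) (mv : Finset ι),
  Odd N → ∀ n : ℕ, Odd n → 3 ≤ n → ∀ (κ : Type) [Fintype κ] (r : κ → ℕ), (∀ c, r c ∣ N) →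
  ∀ (F : κ → Type) [∀ c, Field (F c)] [∀ c, Fintype (F c)] [∀ c, Algebra F2 (F c)] (ξ : ∀ c, F c),
  (∀ c, IsRt (r c) (ξ c)) → Ncj ξ →
  ∀ (A0 : ι → ι → F2) (Fx : ∀ c, ι → ι → F c) (ow : ∀ c, ι → F c) (x : ι → Fin n → Fin n → F2),
  (∀ i, Sy (x i)) → (∀ c, Herm d mv (r c) (Fx c) (ow c)) → (∀ c, Nice d mv (r c) (Fx c) x) →
  ∀ f : (ι → ι → F2) → Prop,
  (∏ c, (1 - dl (r c))) * (((univ : Finset (Bt N d)).filter (fun s => f (AA N d mv A0 s))).card : ℝ) ≤
    (((univ : Finset (Bt N d)).filter (fun s => f (AA N d mv A0 s) ∧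
      ∀ c, KM N d mv (r c) A0 (Fx c) (ow c) x (ξ c) s = ⊥)).card : ℝ)

/-- **JOB GJ-LB2.** The kernel for large `r`: no fixed indices, at least two moving ones, `N = r`, no
condition on the weights. (`t_LB2 (h3 : S_SUR) (h4 : Pool.Agent.Q269.GR.S_UNR) : S_LB2`; `Pool.Agent.Q269.GR.S_SUR` is enough. GR:
`t_LB2` in `Pool/Agent/Q285/GR/LB2.lean`.)
Proof. `J = {i // r ∣ d i}` (all in `mv`), `p = |J| ≥ 2`, `m = n - 1`. Given the trivial symbols (so given the diagonal and the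
weights) the off-diagonal entries are uniform: a Hermitian matrix over `F` (unitary case) or an arbitrary one. The kernel is
nonzero iff the determinant of `H ⊗ 1 + ⊕_i (dd_i + lap (x_i))` on `W0^J` vanishes. Choose a fixed matrix `H*` with zero
diagonal (Hermitian in the unitary case) and `det H* ≠ 0`: for even `p` a direct sum of blocks `[[0, 1], [1, 0]]`; for odd
`p` one block `[[0, 1, x], [1, 0, 1], [x̄, 1, 0]]` of determinant `x + x̄` (with `x + x̄ ≠ 0`; without symmetry take the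
entries `x` and `0` instead of `x` and `x̄`) and blocks of size two. For fixed `H` the polynomial
`t ↦ det ((H + t H*) ⊗ 1 + ⊕ (dd_i + lap (x_i)))` over `F` has degree `m p` with leading coefficient `(det H*)^m ≠ 0`, so at
most `m p` zeros `t` in `F₀` (resp. in `F`). Averaging over `t ∈ F₀` (resp. `F`) and `H` (`H + t H*` is uniform for every
`t`): the proportion of the `H` with vanishing determinant is at most `m p/Q` (resp. `m p/|F|`), and `Q = 2^(f/2)`. -/
def S_LB2 : Prop := ∀ (ι : Type) [Fintype ι] [LinearOrder ι] (d : ι → ℕ) (mv : Finset ι)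
  (r : ℕ), (∀ i, i ∈ mv ↔ r ∣ d i) → 2 ≤ mv.card → ∀ n : ℕ, Odd n → 3 ≤ n →
  ∀ (F : Type) [Field F] [Fintype F] [Algebra F2 F] (ξ : F), IsRt r ξ →
  ∀ (A0 : ι → ι → F2) (Fx : ι → ι → F) (ow : ι → F) (x : ι → Fin n → Fin n → F2), (∀ i, Sy (x i)) →
  Herm d mv r Fx ow →
  (((univ : Finset (Bt r d)).filter (fun s => KM r d mv r A0 Fx ow x ξ s ≠ ⊥)).card : ℝ) ≤
    (n * mv.card / 2 ^ (orderOf (2 : ZMod r) / 2)) * (Fintype.card (Bt r d) : ℝ)

end Pool.Agent.Q269.GJ
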